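import Mathlib
import Pool.Agent.Q220.Dep.Dep

/-!
A zero-one law for product measures: an event which, up to a null event, does not depend on any
given finite set of coordinates has probability zero or one.
-/

set_option autoImplicit false
open MeasureTheory ProbabilityTheory
open scoped ENNReal

namespace Pool.Agent.Q220.Stk

open Pool.Agent.Q220.DP

variable {ι β : Type*} [Countable β] [mβ : MeasurableSpace β] [MeasurableSingletonClass β]
  (m : ι → Measure β) [∀ i, IsProbabilityMeasure (m i)]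

theorem zero_one [Nonempty β] {G : Set (ι → β)} (mG : MeasurableSet G)
    (h : ∀ F : Finset ι, ∃ G' : Set (ι → β), MeasurableSet G' ∧ Dep ((F : Set ι)ᶜ) G' ∧
      G =ᵐ[Measure.infinitePi m] G')
    (hpos : Measure.infinitePi m G ≠ 0) : Measure.infinitePi m G = 1 := by
  classical
  have hprob : IsProbabilityMeasure ((Measure.infinitePi m)[|G]) :=
    cond_isProbabilityMeasure hpos
  have key : (Measure.infinitePi m)[|G] = Measure.infinitePi m := by
    apply Measure.eq_infinitePi
    intro s t ht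
    have hA : MeasurableSet (Set.pi (s : Set ι) t) :=
      MeasurableSet.pi s.countable_toSet fun i _ => ht i
    rw [cond_apply mG]
    obtain ⟨G', mG', hdep, hae⟩ := h s
    have h1 : Measure.infinitePi m (G ∩ Set.pi (s : Set ι) t) =
        Measure.infinitePi m (G' ∩ Set.pi (s : Set ι) t) :=
      measure_congr (hae.inter (Filter.EventuallyEq.refl _ _))
    have hdepA : Dep (s : Set ι) (Set.pi (s : Set ι) t) := by
      intro ω ω' hw hω i hi
      rw [← hw i hi]
      exact hω i hi
    have hβ : Nonempty β := inferInstance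
    rw [h1, Dep.indep_meas m disjoint_compl_left hdep hdepA mG' hA hβ, ← measure_congr hae,
      ← mul_assoc, ENNReal.inv_mul_cancel hpos (measure_ne_top _ _), one_mul,
      Measure.infinitePi_pi _ (fun i _ => ht i)]
  have h2 := cond_apply_self (μ := Measure.infinitePi m) hpos (measure_ne_top _ _)
  rwa [key] at h2

/-- events occurring infinitely often -/
theorem io_meas {Ω : Type*} [MeasurableSpace Ω] {E : ℕ → Set Ω} (hE : ∀ k, MeasurableSet (E k)) :
    MeasurableSet {ω | ∃ᶠ k in Filter.atTop, ω ∈ E k} := by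
  have : {ω | ∃ᶠ k in Filter.atTop, ω ∈ E k} = ⋂ N : ℕ, ⋃ k : ℕ, ⋃ _ : N ≤ k, E k := by
    ext ω
    simp [Filter.frequently_atTop]
  rw [this]
  exact MeasurableSet.iInter fun N => MeasurableSet.iUnion fun k => MeasurableSet.iUnion fun _ => hE k

theorem io_ge {Ω : Type*} [MeasurableSpace Ω] (P : Measure Ω) [IsFiniteMeasure P] {E : ℕ → Set Ω}
    (hE : ∀ k, MeasurableSet (E k)) {c : ℝ≥0∞} (h : ∃ᶠ k in Filter.atTop, c ≤ P (E k)) :
    c ≤ P {ω | ∃ᶠ k in Filter.atTop, ω ∈ E k} := by
  have : {ω | ∃ᶠ k in Filter.atTop, ω ∈ E k} = ⋂ N : ℕ, ⋃ k : ℕ, ⋃ _ : N ≤ k, E k := by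
    ext ω
    simp [Filter.frequently_atTop]
  rw [this]
  have hanti : Antitone fun N : ℕ => ⋃ k : ℕ, ⋃ _ : N ≤ k, E k := by
    intro N M hNM
    exact Set.iUnion_mono fun k => Set.iUnion_mono' fun hk => ⟨hNM.trans hk, le_rfl⟩
  rw [hanti.measure_iInter (fun N => (MeasurableSet.iUnion fun k =>
    MeasurableSet.iUnion fun _ => hE k).nullMeasurableSet) ⟨0, measure_ne_top _ _⟩]
  refine le_iInf fun N => ?_
  rw [Filter.frequently_atTop] at h
  obtain ⟨k, hk, hc⟩ := h N
  refine hc.trans (measure_mono ?_)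
  intro ω hω
  exact Set.mem_iUnion.mpr ⟨k, Set.mem_iUnion.mpr ⟨hk, hω⟩⟩

end Pool.Agent.Q220.Stk
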