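import Mathlib
import Pool.Agent.Q220.Dep.Dep
import Pool.Agent.Q220.Stk.Zero

/-!
Self-avoiding walks in the edges outside a region `R` of `ℤ²` which are open with small probability.
-/

set_option autoImplicit false
open MeasureTheory ProbabilityTheory
open scoped ENNReal

namespace Pool.Agent.Q220.Stk

open Pool.Agent.Q220.DP

/-- vertices of the square lattice -/
abbrev V : Type := ℤ × ℤ

/-- nearest neighbours -/
def latt (x y : V) : Prop := |x.1 - y.1| + |x.2 - y.2| = 1

/-- the open graph -/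
def opn (ω : Sym2 V → Bool) : SimpleGraph V where
  Adj x y := latt x y ∧ ω s(x, y) = true
  symm := ⟨fun x y h => ⟨by
    have := h.1
    unfold latt at *
    rwa [abs_sub_comm y.1, abs_sub_comm y.2], by rw [Sym2.eq_swap]; exact h.2⟩⟩
  loopless := ⟨fun x h => by
    have := h.1
    unfold latt at this
    simp at this⟩

/-- the open edges which are not inside `R` -/
def opp (R : Set V) (ω : Sym2 V → Bool) : SimpleGraph V where
  Adj x y := (opn ω).Adj x y ∧ ¬ (x ∈ R ∧ y ∈ R)
  symm := ⟨fun _ _ h => ⟨h.1.symm, fun h' => h.2 ⟨h'.2, h'.1⟩⟩⟩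
  loopless := ⟨fun x h => (opn ω).loopless.irrefl x h.1⟩

/-- the four neighbours -/
def nb (x : V) : Finset V := {(x.1 + 1, x.2), (x.1 - 1, x.2), (x.1, x.2 + 1), (x.1, x.2 - 1)}

theorem nb_card (x : V) : (nb x).card ≤ 4 := by
  unfold nb
  exact Finset.card_le_four

theorem mem_nb {x y : V} (h : latt x y) : y ∈ nb x := by
  obtain ⟨a, b⟩ := x
  obtain ⟨c, e⟩ := y
  unfold latt at h
  simp only at h
  unfold nb
  simp only [Finset.mem_insert, Finset.mem_singleton, Prod.mk.injEq]
  rcases abs_cases (a - c) with h1 | h1 <;> rcases abs_cases (b - e) with h2 | h2 <;> omega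

/-- the edge `{x, y}` is an open edge not inside `R` -/
def Eo (R : Set V) (x y : V) : Set (Sym2 V → Bool) := {ω | ω s(x, y) = true ∧ ¬ (x ∈ R ∧ y ∈ R)}

theorem Eo_dep (R : Set V) (x y : V) : Dep {s(x, y)} (Eo R x y) := by
  intro ω ω' h hω
  have := h s(x, y) rfl
  exact ⟨by rw [← this]; exact hω.1, hω.2⟩

/-- there is an open self-avoiding path of length `M` from `x` avoiding `A` -/
def T (R : Set V) : ℕ → V → Set V → Set (Sym2 V → Bool)
  | 0, _, _ => Set.univ
  | M + 1, x, A => ⋃ y ∈ nb x, ⋃ _ : y ∉ insert x A, (Eo R x y ∩ T R M y (insert x A))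

theorem T_dep (R : Set V) (M : ℕ) : ∀ (x : V) (A : Set V), x ∉ A →
    Dep {e : Sym2 V | ∀ v ∈ e, v ∉ A} (T R M x A) := by
  induction M with
  | zero => intro x A _; exact Dep.univ _
  | succ M ih =>
    intro x A hx
    refine Dep.iUnion fun y => Dep.iUnion fun _ => Dep.iUnion fun hy => ?_
    refine Dep.inter ((Eo_dep R x y).mono ?_) ((ih y (insert x A) hy).mono ?_)
    · rintro e rfl
      intro v hv
      rw [Sym2.mem_iff] at hv
      rcases hv with rfl | rfl
      · exact hx
      · exact fun h => hy (Set.mem_insert_of_mem _ h)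
    · intro e he v hv h
      exact he v hv (Set.mem_insert_of_mem _ h)

theorem T_meas (R : Set V) (M : ℕ) : ∀ (x : V) (A : Set V), MeasurableSet (T R M x A) := by
  induction M with
  | zero => intro x A; exact MeasurableSet.univ
  | succ M ih =>
    intro x A
    exact MeasurableSet.iUnion fun y => MeasurableSet.iUnion fun _ => MeasurableSet.iUnion fun _ =>
      ((Eo_dep R x y).measurable (Set.finite_singleton _)).inter (ih _ _)

section

variable (m : Sym2 V → Measure Bool) [∀ e, IsProbabilityMeasure (m e)]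

theorem Eo_prob {R : Set V} {r : ℝ≥0∞} (hr : ∀ x y : V, ¬ (x ∈ R ∧ y ∈ R) → m s(x, y) {true} ≤ r)
    (x y : V) : Measure.infinitePi m (Eo R x y) ≤ r := by
  by_cases h : x ∈ R ∧ y ∈ R
  · have : Eo R x y = ∅ := by
      ext ω
      simp [Eo, h]
    rw [this, measure_empty]
    exact zero_le
  · have h1 : Eo R x y ⊆ (fun ω : Sym2 V → Bool => ω s(x, y)) ⁻¹' {true} := fun ω hω => hω.1
    refine (measure_mono h1).trans ?_
    rw [(measurePreserving_eval_infinitePi m s(x, y)).measure_preimage
      (MeasurableSet.of_discrete.nullMeasurableSet)]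
    exact hr x y h

theorem T_prob {R : Set V} {r : ℝ≥0∞} (hr : ∀ x y : V, ¬ (x ∈ R ∧ y ∈ R) → m s(x, y) {true} ≤ r)
    (M : ℕ) : ∀ (x : V) (A : Set V), x ∉ A → Measure.infinitePi m (T R M x A) ≤ (4 * r) ^ M := by
  induction M with
  | zero => intro x A _; simp [T]
  | succ M ih =>
    intro x A hx
    unfold T
    refine (measure_biUnion_finset_le _ _).trans ?_
    have h1 : ∀ y ∈ nb x, Measure.infinitePi m (⋃ _ : y ∉ insert x A, (Eo R x y ∩ T R M y (insert x A)))
        ≤ r * (4 * r) ^ M := by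
      intro y _
      by_cases hy : y ∉ insert x A
      · have e1 : (⋃ _ : y ∉ insert x A, (Eo R x y ∩ T R M y (insert x A))) =
            Eo R x y ∩ T R M y (insert x A) := by
          simp [hy]
        rw [e1, Dep.indep_meas m (D1 := {s(x, y)}) (D2 := {e : Sym2 V | ∀ v ∈ e, v ∉ insert x A}) ?_
          (Eo_dep R x y) (T_dep R M y _ hy) ((Eo_dep R x y).measurable (Set.finite_singleton _))
          (T_meas R M y _) ⟨true⟩]
        · gcongr
          · exact Eo_prob m hr x y
          · exact ih y _ hy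
        · rw [Set.disjoint_left]
          rintro e rfl h2
          exact h2 x (Sym2.mem_mk_left x y) (Set.mem_insert x A)
      · have e1 : (⋃ _ : y ∉ insert x A, (Eo R x y ∩ T R M y (insert x A))) = ∅ :=
          Set.iUnion_eq_empty.mpr fun h => absurd h hy
        rw [e1, measure_empty]
        exact zero_le
    calc ∑ y ∈ nb x, Measure.infinitePi m (⋃ _ : y ∉ insert x A, (Eo R x y ∩ T R M y (insert x A)))
        ≤ ∑ y ∈ nb x, r * (4 * r) ^ M := Finset.sum_le_sum h1
      _ = (nb x).card * (r * (4 * r) ^ M) := by rw [Finset.sum_const, nsmul_eq_mul]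
      _ ≤ 4 * (r * (4 * r) ^ M) := by
          gcongr
          exact_mod_cast nb_card x
      _ = (4 * r) ^ (M + 1) := by ring

end

/-- a path of length at least `M` gives the event `T` -/
theorem T_of_path {R : Set V} {ω : Sym2 V → Bool} (M : ℕ) : ∀ {x y : V} (w : (opp R ω).Walk x y)
    (A : Set V), w.IsPath → M ≤ w.length → (∀ v ∈ w.support, v ∉ A) → ω ∈ T R M x A := by
  induction M with
  | zero => intro x y w A _ _ _; trivial
  | succ M ih =>
    intro x y w A hw hl hA
    cases w with
    | nil => simp at hl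
    | @cons _ z _ hadj w' =>
      rw [SimpleGraph.Walk.cons_isPath_iff] at hw
      simp only [SimpleGraph.Walk.length_cons, Nat.add_le_add_iff_right] at hl
      have hA' : ∀ v ∈ w'.support, v ∉ insert x A := by
        intro v hv h
        rcases h with rfl | h
        · exact hw.2 hv
        · exact hA v (by simp [hv]) h
      have hz : z ∉ insert x A := hA' z w'.start_mem_support
      refine Set.mem_iUnion₂.mpr ⟨z, mem_nb hadj.1.1, Set.mem_iUnion.mpr ⟨hz, ?_, ?_⟩⟩
      · exact ⟨hadj.1.2, hadj.2⟩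
      · exact ih w' _ hw.1 hl hA'

/-- `ℓ¹` distance -/
def dst (x y : V) : ℤ := |x.1 - y.1| + |x.2 - y.2|

theorem dst_le_length {R : Set V} {ω : Sym2 V → Bool} {x y : V} (w : (opp R ω).Walk x y) :
    dst x y ≤ w.length := by
  induction w with
  | nil => simp [dst]
  | @cons a b c hadj w' ih =>
    have h1 : latt a b := hadj.1.1
    unfold latt at h1
    unfold dst at *
    simp only [SimpleGraph.Walk.length_cons]
    push_cast
    have h2 := abs_sub_le a.1 b.1 c.1
    have h3 := abs_sub_le a.2 b.2 c.2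
    linarith

theorem T_of_reachable {R : Set V} {ω : Sym2 V → Bool} {x y : V} {M : ℕ}
    (h : (opp R ω).Reachable x y) (hM : (M : ℤ) ≤ dst x y) : ω ∈ T R M x ∅ := by
  obtain ⟨w, hw⟩ := h.exists_isPath
  refine T_of_path M w ∅ hw ?_ (by simp)
  have := dst_le_length w
  omega

/-- all open clusters outside `R` are finite almost surely -/
theorem ae_finite (m : Sym2 V → Measure Bool) [∀ e, IsProbabilityMeasure (m e)] {R : Set V}
    {r : ℝ≥0∞} (hr : ∀ x y : V, ¬ (x ∈ R ∧ y ∈ R) → m s(x, y) {true} ≤ r) (hr1 : 4 * r < 1) :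
    ∀ᵐ ω ∂(Measure.infinitePi m), ∀ x : V, {y | (opp R ω).Reachable x y}.Finite := by
  rw [ae_all_iff]
  intro x
  have h0 : Measure.infinitePi m (⋂ M, T R M x ∅) = 0 := by
    have h1 : ∀ M, Measure.infinitePi m (⋂ M, T R M x ∅) ≤ (4 * r) ^ M := fun M =>
      (measure_mono (Set.iInter_subset _ M)).trans (T_prob m hr M x ∅ (by simp))
    have h2 := ENNReal.tendsto_pow_atTop_nhds_zero_of_lt_one hr1
    exact le_antisymm (ge_of_tendsto' h2 h1) zero_le
  have h1 : ∀ᵐ ω ∂(Measure.infinitePi m), ω ∉ ⋂ M, T R M x ∅ := measure_eq_zero_iff_ae_notMem.mp h0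
  filter_upwards [h1] with ω hω
  rw [Set.mem_iInter, not_forall] at hω
  obtain ⟨M, hM⟩ := hω
  have h2 : {y | (opp R ω).Reachable x y} ⊆ {y | dst x y < M} := by
    intro y hy
    by_contra hc
    exact hM (T_of_reachable hy (not_lt.mp hc))
  refine Set.Finite.subset ?_ h2
  refine ((Set.finite_Icc (x.1 - M) (x.1 + M)).prod (Set.finite_Icc (x.2 - M) (x.2 + M))).subset ?_
  intro y hy
  have hy' : |x.1 - y.1| + |x.2 - y.2| < M := hy
  have h3 := abs_nonneg (x.1 - y.1)
  have h4 := abs_nonneg (x.2 - y.2)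
  have h5 := abs_le.mp (show |x.1 - y.1| ≤ M by omega)
  have h6 := abs_le.mp (show |x.2 - y.2| ≤ M by omega)
  simp only [Set.mem_prod, Set.mem_Icc]
  omega

end Pool.Agent.Q220.Stk
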