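import Mathlib
import Pool.Agent.Q220.Stk.Saw

/-!
Geometry of the stack of boxes and of its cuts.
-/

set_option autoImplicit false
open MeasureTheory ProbabilityTheory
open scoped ENNReal

namespace Pool.Agent.Q220.Stk

open Pool.Agent.Q220.DP

/-- `X 0 + 2 (X s + X (2 s) + ... + X ((n - 1) s)) + X (n s)` for `n ≥ 1` -/
def Zp (X : ℤ → ℕ) (s : ℤ) (n : ℕ) : ℤ :=
  if n = 0 then 0 else X 0 + 2 * ∑ i ∈ Finset.Ico 1 n, (X (s * i) : ℤ) + X (s * n)

/-- the height of the centre of the `n`-th box -/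
def Zc (X : ℤ → ℕ) (n : ℤ) : ℤ := if 0 ≤ n then Zp X 1 n.toNat else - Zp X (-1) (-n).toNat

/-- the box with centre at height `a` and radius `r` -/
def Bx (a : ℤ) (r : ℕ) : Set V := {v | |v.1| ≤ r ∧ a - r ≤ v.2 ∧ v.2 ≤ a + r}

/-- the union of the stacked boxes -/
def RR (X : ℤ → ℕ) : Set V := ⋃ n : ℤ, Bx (Zc X n) (X n)

/-- top height of the `n`-th box -/
def hgt (X : ℤ → ℕ) (n : ℤ) : ℤ := Zc X n + X n

theorem Zp_succ (X : ℤ → ℕ) (s : ℤ) (n : ℕ) :
    Zp X s (n + 1) = Zp X s n + X (s * n) + X (s * ((n + 1 : ℕ) : ℤ)) := by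
  unfold Zp
  rcases n with _ | n
  · simp
  · rw [if_neg (by omega), if_neg (by omega), Finset.sum_Ico_succ_top (by omega)]
    ring

theorem Zc_nat (X : ℤ → ℕ) (n : ℕ) : Zc X n = Zp X 1 n := by
  unfold Zc
  simp

theorem Zc_neg (X : ℤ → ℕ) (n : ℕ) : Zc X (-(n : ℤ)) = - Zp X (-1) n := by
  unfold Zc
  rcases n with _ | n
  · simp [Zp]
  · rw [if_neg (by push_cast; omega)]
    simp

theorem Zc_succ (X : ℤ → ℕ) (n : ℤ) : Zc X (n + 1) = Zc X n + X n + X (n + 1) := by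
  rcases le_or_gt 0 n with h | h
  · obtain ⟨k, rfl⟩ := Int.eq_ofNat_of_zero_le h
    have h1 : ((k : ℤ) + 1) = ((k + 1 : ℕ) : ℤ) := by push_cast; ring
    rw [h1, Zc_nat, Zc_nat, Zp_succ]
    simp
  · obtain ⟨k, hk⟩ : ∃ k : ℕ, n = -((k + 1 : ℕ) : ℤ) := ⟨(-n - 1).toNat, by omega⟩
    have h1 : n + 1 = -(k : ℤ) := by rw [hk]; push_cast; ring
    rw [h1, hk, Zc_neg, Zc_neg, Zp_succ]
    have h2 : (-1 : ℤ) * ((k + 1 : ℕ) : ℤ) = -((k + 1 : ℕ) : ℤ) := by ring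
    have h3 : (-1 : ℤ) * (k : ℤ) = -(k : ℤ) := by ring
    rw [h2, h3]
    ring

theorem Zc_zero (X : ℤ → ℕ) : Zc X 0 = 0 := by
  unfold Zc Zp
  simp

theorem hgt_succ (X : ℤ → ℕ) (n : ℤ) : hgt X (n + 1) = hgt X n + 2 * X (n + 1) := by
  unfold hgt
  rw [Zc_succ]
  ring

theorem hgt_pred (X : ℤ → ℕ) (n : ℤ) : hgt X (n - 1) = Zc X n - X n := by
  have := hgt_succ X (n - 1)
  rw [sub_add_cancel] at this
  unfold hgt at this ⊢
  linarith

theorem mem_Bx (X : ℤ → ℕ) (n : ℤ) (v : V) :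
    v ∈ Bx (Zc X n) (X n) ↔ |v.1| ≤ X n ∧ hgt X (n - 1) ≤ v.2 ∧ v.2 ≤ hgt X n := by
  unfold Bx
  rw [hgt_pred]
  rfl

variable {X : ℤ → ℕ}

theorem hgt_add (hX : ∀ n, 1 ≤ X n) (n : ℤ) (k : ℕ) : hgt X n + 2 * k ≤ hgt X (n + k) := by
  induction k with
  | zero => simp
  | succ k ih =>
    have h1 : n + ((k + 1 : ℕ) : ℤ) = n + k + 1 := by push_cast; ring
    rw [h1, hgt_succ]
    have := hX (n + k + 1)
    push_cast
    omega

theorem hgt_mono (hX : ∀ n, 1 ≤ X n) {n k : ℤ} (h : n ≤ k) : hgt X n + 2 * (k - n) ≤ hgt X k := by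
  obtain ⟨j, hj⟩ : ∃ j : ℕ, k = n + j := ⟨(k - n).toNat, by omega⟩
  have := hgt_add hX n j
  rw [hj]
  linarith

/-- the part of the stack below the cut `n` -/
def Lo (X : ℤ → ℕ) (n : ℤ) : Set V := {v | ∃ k ≤ n, v ∈ Bx (Zc X k) (X k)}

/-- the part of the stack above the cut `n` -/
def Up (X : ℤ → ℕ) (n : ℤ) : Set V := {v | (∃ k, n < k ∧ v ∈ Bx (Zc X k) (X k)) ∧ hgt X n < v.2}

theorem Lo_le (hX : ∀ n, 1 ≤ X n) {n : ℤ} {v : V} (h : v ∈ Lo X n) : v.2 ≤ hgt X n := by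
  obtain ⟨k, hk, hv⟩ := h
  rw [mem_Bx] at hv
  have := hgt_mono hX hk
  omega

theorem RR_split (hX : ∀ n, 1 ≤ X n) {n : ℤ} (h0 : X n = 1) (h1 : X (n + 1) = 1) {v : V}
    (h : v ∈ RR X) : v ∈ Lo X n ∨ v ∈ Up X n := by
  obtain ⟨k, hk⟩ := Set.mem_iUnion.mp h
  rcases le_or_gt k n with hkn | hkn
  · exact Or.inl ⟨k, hkn, hk⟩
  · by_cases hv : hgt X n < v.2
    · exact Or.inr ⟨⟨k, hkn, hk⟩, hv⟩
    · left
      have hk' := (mem_Bx X k v).mp hk
      have h2 := hgt_mono hX (show n ≤ k - 1 by omega)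
      have h3 : k = n + 1 := by omega
      refine ⟨n, le_refl _, (mem_Bx X n v).mpr ⟨?_, ?_, ?_⟩⟩
      · rw [h3, h1] at hk'
        rw [h0]
        exact hk'.1
      · have := hgt_mono hX (show n - 1 ≤ n by omega)
        rw [h3] at hk'
        have h4 : n + 1 - 1 = n := by ring
        rw [h4] at hk'
        omega
      · omega

theorem Lo_sub (X : ℤ → ℕ) (n : ℤ) : Lo X n ⊆ RR X := by
  rintro v ⟨k, _, hv⟩
  exact Set.mem_iUnion.mpr ⟨k, hv⟩

theorem Up_sub (X : ℤ → ℕ) (n : ℤ) : Up X n ⊆ RR X := by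
  rintro v ⟨⟨k, _, hv⟩, _⟩
  exact Set.mem_iUnion.mpr ⟨k, hv⟩

/-- the cut edges are closed -/
def Cc (X : ℤ → ℕ) (n : ℤ) : Set (Sym2 V → Bool) :=
  {ω | ∀ t : ℤ, |t| ≤ 1 → ω s((t, hgt X n), (t, hgt X n + 1)) = false}

/-- no path outside the stack across the cut -/
def Dd (X : ℤ → ℕ) (n : ℤ) : Set (Sym2 V → Bool) :=
  {ω | ∀ x ∈ Lo X n, ∀ y ∈ Up X n, ¬ (opp (RR X) ω).Reachable x y}

theorem cut_edge (hX : ∀ n, 1 ≤ X n) {n : ℤ} (h0 : X n = 1) {x y : V} (hx : x ∈ Lo X n)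
    (hy : y ∈ Up X n) (h : latt x y) : ∃ t : ℤ, |t| ≤ 1 ∧ x = (t, hgt X n) ∧ y = (t, hgt X n + 1) := by
  have h1 := Lo_le hX hx
  have h2 := hy.2
  unfold latt at h
  have h3 := abs_nonneg (x.1 - y.1)
  have h5 : |x.2 - y.2| = y.2 - x.2 := by
    rw [abs_sub_comm, abs_of_nonneg (by omega)]
  have h6 : |x.1 - y.1| = 0 := by omega
  have h7 : x.1 = y.1 := by
    rw [abs_eq_zero] at h6
    omega
  obtain ⟨k, hk, hv⟩ := hx
  have hv' := (mem_Bx X k x).mp hv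
  have h8 := hgt_mono hX hk
  have h9 : k = n := by omega
  rw [h9, h0] at hv'
  refine ⟨x.1, by exact_mod_cast hv'.1, ?_, ?_⟩
  · ext
    · rfl
    · show x.2 = hgt X n
      omega
  · ext
    · exact h7.symm
    · show y.2 = hgt X n + 1
      omega

/-- a blocked cut separates the two parts -/
theorem blocked (hX : ∀ n, 1 ≤ X n) {n : ℤ} (h0 : X n = 1) (h1 : X (n + 1) = 1)
    {ω : Sym2 V → Bool} (hC : ω ∈ Cc X n) (hD : ω ∈ Dd X n) {x y : V} (hx : x ∈ Lo X n)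
    (hy : y ∈ Up X n) : ¬ (opn ω).Reachable x y := by
  intro hr
  rw [SimpleGraph.reachable_iff_reflTransGen] at hr
  have key : ∀ z, Relation.ReflTransGen (opn ω).Adj x z →
      ∃ x' ∈ Lo X n, (opp (RR X) ω).Reachable x' z := by
    intro z hz
    induction hz with
    | refl => exact ⟨x, hx, SimpleGraph.Reachable.refl _⟩
    | @tail b c _ hbc ih =>
      obtain ⟨x', hx', hr'⟩ := ih
      by_cases hR : b ∈ RR X ∧ c ∈ RR X
      · rcases RR_split hX h0 h1 hR.2 with hc | hc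
        · exact ⟨c, hc, SimpleGraph.Reachable.refl _⟩
        · rcases RR_split hX h0 h1 hR.1 with hb | hb
          · obtain ⟨t, ht, rfl, rfl⟩ := cut_edge hX h0 hb hc hbc.1
            have := hC t ht
            rw [hbc.2] at this
            exact absurd this (by simp)
          · exact absurd hr' (hD x' hx' b hb)
      · exact ⟨x', hx', hr'.trans (SimpleGraph.Adj.reachable ⟨hbc, hR⟩)⟩
  obtain ⟨x', hx', hr'⟩ := key y hr
  exact hD x' hx' y hy hr'

theorem Bx_finite (a : ℤ) (r : ℕ) : (Bx a r).Finite := by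
  refine ((Set.finite_Icc (-(r : ℤ)) r).prod (Set.finite_Icc (a - r) (a + r))).subset ?_
  rintro v ⟨h1, h2, h3⟩
  have := abs_le.mp h1
  simp only [Set.mem_prod, Set.mem_Icc]
  omega

/-- between two blocked cuts the open cluster of the origin is finite -/
theorem cluster_finite (hX : ∀ n, 1 ≤ X n) {n k : ℤ} (hn : 0 ≤ n) (hk : k ≤ -1) (h0 : X n = 1)
    (h1 : X (n + 1) = 1) (g0 : X k = 1) (g1 : X (k + 1) = 1) {ω : Sym2 V → Bool}
    (hC : ω ∈ Cc X n) (hD : ω ∈ Dd X n) (gC : ω ∈ Cc X k) (gD : ω ∈ Dd X k)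
    (hfin : ∀ x : V, {y | (opp (RR X) ω).Reachable x y}.Finite) :
    {y | (opn ω).Reachable (0, 0) y}.Finite := by
  have o0 : ((0, 0) : V) ∈ Bx (Zc X 0) (X 0) := by
    rw [Zc_zero]
    refine ⟨by simp, ?_, ?_⟩ <;> simp
  have oLo : ((0, 0) : V) ∈ Lo X n := ⟨0, hn, o0⟩
  have oUp : ((0, 0) : V) ∈ Up X k := by
    refine ⟨⟨0, by omega, o0⟩, ?_⟩
    have h2 := hgt_mono hX hk
    have h3 := hgt_succ X (-1)
    have h4 : (-1 : ℤ) + 1 = 0 := by norm_num
    rw [h4] at h3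
    have h5 : hgt X 0 = X 0 := by unfold hgt; rw [Zc_zero]; simp
    have h6 := hX 0
    show hgt X k < 0
    omega
  have hS : (Lo X n ∩ Up X k).Finite := by
    refine Set.Finite.subset (Set.Finite.biUnion (Set.finite_Ioc k n)
      fun j _ => Bx_finite (Zc X j) (X j)) ?_
    rintro v ⟨⟨j, hj, hv⟩, _, hv2⟩
    have hv' := (mem_Bx X j v).mp hv
    refine Set.mem_iUnion₂.mpr ⟨j, ⟨?_, hj⟩, hv⟩
    by_contra hjk
    have := hgt_mono hX (not_lt.mp hjk)
    omega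
  refine Set.Finite.subset (Set.Finite.biUnion hS fun z _ => hfin z) ?_
  intro y hy
  have hy' : (opn ω).Reachable (0, 0) y := hy
  rw [SimpleGraph.reachable_iff_reflTransGen] at hy'
  induction hy' with
  | refl => exact Set.mem_iUnion₂.mpr ⟨(0, 0), ⟨oLo, oUp⟩, SimpleGraph.Reachable.refl _⟩
  | @tail b c hb hbc ih =>
    have hb' : (opn ω).Reachable (0, 0) b := (SimpleGraph.reachable_iff_reflTransGen _ _).mpr hb
    have hc' : (opn ω).Reachable (0, 0) c := hb'.trans hbc.reachable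
    obtain ⟨z, hz, hzb⟩ := Set.mem_iUnion₂.mp (ih hb')
    by_cases hR : b ∈ RR X ∧ c ∈ RR X
    · refine Set.mem_iUnion₂.mpr ⟨c, ⟨?_, ?_⟩, SimpleGraph.Reachable.refl _⟩
      · rcases RR_split hX h0 h1 hR.2 with h | h
        · exact h
        · exact absurd hc' (blocked hX h0 h1 hC hD oLo h)
      · rcases RR_split hX g0 g1 hR.2 with h | h
        · exact absurd hc'.symm (blocked hX g0 g1 gC gD h oUp)
        · exact h
    · exact Set.mem_iUnion₂.mpr ⟨z, hz, SimpleGraph.Reachable.trans hzb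
        (SimpleGraph.Adj.reachable ⟨hbc, hR⟩)⟩

/-- closing the edges of `F` -/
noncomputable def cl (F : Finset (Sym2 V)) (ω : Sym2 V → Bool) : Sym2 V → Bool := by
  classical exact fun e => if e ∈ F then false else ω e

theorem cl_of_mem {F : Finset (Sym2 V)} {ω : Sym2 V → Bool} {e : Sym2 V} (h : e ∈ F) :
    cl F ω e = false := by simp [cl, h]

theorem cl_of_notMem {F : Finset (Sym2 V)} {ω : Sym2 V → Bool} {e : Sym2 V} (h : e ∉ F) :
    cl F ω e = ω e := by simp [cl, h]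

theorem cl_le {F : Finset (Sym2 V)} {ω : Sym2 V → Bool} {e : Sym2 V} (h : cl F ω e = true) :
    ω e = true := by
  by_cases he : e ∈ F
  · rw [cl_of_mem he] at h
    exact absurd h (by simp)
  · rwa [cl_of_notMem he] at h

theorem Cc_cl {F : Finset (Sym2 V)} {ω : Sym2 V → Bool} {n : ℤ} (h : ω ∈ Cc X n) :
    cl F ω ∈ Cc X n := by
  intro t ht
  by_contra hc
  have h1 : cl F ω s((t, hgt X n), (t, hgt X n + 1)) = true := by simpa using hc
  have := cl_le h1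
  rw [h t ht] at this
  exact absurd this (by simp)

theorem opp_cl_le (R : Set V) (F : Finset (Sym2 V)) (ω : Sym2 V → Bool) :
    opp R (cl F ω) ≤ opp R ω := by
  intro x y h
  exact ⟨⟨h.1.1, cl_le h.1.2⟩, h.2⟩

theorem Dd_cl {F : Finset (Sym2 V)} {ω : Sym2 V → Bool} {n : ℤ} (h : ω ∈ Dd X n) :
    cl F ω ∈ Dd X n := by
  intro x hx y hy hr
  exact h x hx y hy (hr.mono (opp_cl_le _ _ _))

/-- if closing `F` creates the event at the cut `n`, some vertex of `F` is joined to both sides -/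
theorem Dd_of_cl {F : Finset (Sym2 V)} {ω : Sym2 V → Bool} {n : ℤ} (h : cl F ω ∈ Dd X n)
    (h' : ω ∉ Dd X n) : ∃ e ∈ F, ∃ v ∈ e, ∃ x ∈ Lo X n, ∃ y ∈ Up X n,
      (opp (RR X) ω).Reachable v x ∧ (opp (RR X) ω).Reachable v y := by
  by_contra hno
  push Not at hno
  apply h'
  intro x hx y hy hr
  have hr0 := hr
  rw [SimpleGraph.reachable_iff_reflTransGen] at hr
  have key : ∀ z, Relation.ReflTransGen (opp (RR X) ω).Adj x z →
      (opp (RR X) (cl F ω)).Reachable x z := by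
    intro z hz
    induction hz with
    | refl => exact SimpleGraph.Reachable.refl _
    | @tail b c hb hbc ih =>
      refine ih.trans (SimpleGraph.Adj.reachable ?_)
      refine ⟨⟨hbc.1.1, ?_⟩, hbc.2⟩
      by_cases he : s(b, c) ∈ F
      · exfalso
        have hxb : (opp (RR X) ω).Reachable x b := (SimpleGraph.reachable_iff_reflTransGen _ _).mpr hb
        exact hno _ he b (Sym2.mem_mk_left b c) x hx y hy hxb.symm (hxb.symm.trans hr0)
      · rw [cl_of_notMem he]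
        exact hbc.1.2
  exact h x hx y hy (key y hr)

/-- far away cuts do not feel the edges of `F` -/
theorem far (hX : ∀ n, 1 ≤ X n) (F : Finset (Sym2 V)) {ω : Sym2 V → Bool}
    (hfin : ∀ x : V, {y | (opp (RR X) ω).Reachable x y}.Finite) :
    {n : ℤ | cl F ω ∈ Cc X n ∩ Dd X n ∧ ω ∉ Cc X n ∩ Dd X n}.Finite := by
  classical
  -- heights met by the clusters of the vertices of `F`
  set W : Set V := ⋃ e ∈ F, ⋃ v ∈ {v | v ∈ e}, {y | (opp (RR X) ω).Reachable v y} with hW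
  have hWf : W.Finite := by
    refine Set.Finite.biUnion F.finite_toSet fun e _ => ?_
    refine Set.Finite.biUnion ?_ fun v _ => hfin v
    induction e with
    | _ a b =>
      refine (Set.toFinite {a, b}).subset ?_
      intro v hv
      have hv' : v ∈ s(a, b) := hv
      rw [Sym2.mem_iff] at hv'
      simpa using hv'
  obtain ⟨H, hH⟩ : ∃ H : ℤ, ∀ v ∈ W, |v.2| ≤ H := by
    obtain ⟨H, hH⟩ := (hWf.image fun v : V => |v.2|).bddAbove
    exact ⟨H, fun v hv => hH ⟨v, hv, rfl⟩⟩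
  have hFW : ∀ e ∈ F, ∀ v ∈ e, v ∈ W := fun e he v hv =>
    Set.mem_iUnion₂.mpr ⟨e, he, Set.mem_iUnion₂.mpr ⟨v, hv, SimpleGraph.Reachable.refl _⟩⟩
  have hsub : {n : ℤ | cl F ω ∈ Cc X n ∩ Dd X n ∧ ω ∉ Cc X n ∩ Dd X n} ⊆
      {n : ℤ | |hgt X n| ≤ H + 1} := by
    rintro n ⟨⟨hc, hd⟩, hnot⟩
    by_cases hC : ω ∈ Cc X n
    · have hD : ω ∉ Dd X n := fun h => hnot ⟨hC, h⟩
      obtain ⟨e, he, v, hv, x, hx, y, hy, hvx, hvy⟩ := Dd_of_cl hd hD
      have h1 := hH x (Set.mem_iUnion₂.mpr ⟨e, he, Set.mem_iUnion₂.mpr ⟨v, hv, hvx⟩⟩)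
      have h2 := hH y (Set.mem_iUnion₂.mpr ⟨e, he, Set.mem_iUnion₂.mpr ⟨v, hv, hvy⟩⟩)
      have h3 := Lo_le hX hx
      have h4 := hy.2
      rw [abs_le] at h1 h2
      show |hgt X n| ≤ H + 1
      rw [abs_le]
      omega
    · unfold Cc at hC
      simp only [Set.mem_ofPred_eq, not_forall] at hC
      obtain ⟨t, ht, hne⟩ := hC
      have h1 : s((t, hgt X n), (t, hgt X n + 1)) ∈ F := by
        by_contra hF
        have := hc t ht
        rw [cl_of_notMem hF] at this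
        exact hne this
      have h2 := hH _ (hFW _ h1 (t, hgt X n) (Sym2.mem_mk_left _ _))
      show |hgt X n| ≤ H + 1
      simp only at h2
      omega
  refine Set.Finite.subset ?_ hsub
  -- heights grow at least linearly
  refine (Set.finite_Icc (-(H + 1 + |hgt X 0|)) (H + 1 + |hgt X 0|)).subset ?_
  intro n hn
  have hn' : |hgt X n| ≤ H + 1 := hn
  rw [abs_le] at hn'
  have h0 := abs_le.mp (le_refl |hgt X 0|)
  rw [Set.mem_Icc]
  rcases le_total 0 n with h | h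
  · have := hgt_mono hX h
    constructor <;> omega
  · have := hgt_mono hX h
    constructor <;> omega

end Pool.Agent.Q220.Stk
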