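import Mathlib
import Pool.Agent.Q220.Stk.Geo

/-!
Quenched statement: infinitely many good cuts on both sides imply that the cluster is finite.
-/

set_option autoImplicit false
open MeasureTheory ProbabilityTheory Filter
open scoped ENNReal

namespace Pool.Agent.Q220.Stk

open Pool.Agent.Q220.DP

/-- good cuts of the environment -/
def Gd (X : ℤ → ℕ) (n : ℤ) : Prop :=
  X n = 1 ∧ X (n + 1) = 1 ∧ ∀ i j : ℕ, X (n - i) ≤ 2 ^ (i + j) ∨ X (n + 1 + j) ≤ 2 ^ (i + j)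

/-- joined in `k` steps outside `R` -/
def rc (R : Set V) : ℕ → V → V → Set (Sym2 V → Bool)
  | 0, x, y => {_ω | x = y}
  | k + 1, x, y => ⋃ z : V, rc R k x z ∩ {_ω | latt z y} ∩ Eo R z y

theorem rc_iff {R : Set V} {ω : Sym2 V → Bool} {x y : V} :
    (opp R ω).Reachable x y ↔ ∃ k, ω ∈ rc R k x y := by
  constructor
  · intro h
    rw [SimpleGraph.reachable_iff_reflTransGen] at h
    induction h with
    | refl => exact ⟨0, rfl⟩
    | @tail b c _ hbc ih =>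
      obtain ⟨k, hk⟩ := ih
      exact ⟨k + 1, Set.mem_iUnion.mpr ⟨b, ⟨hk, hbc.1.1⟩, hbc.1.2, hbc.2⟩⟩
  · rintro ⟨k, hk⟩
    induction k generalizing y with
    | zero =>
      have : x = y := hk
      rw [this]
    | succ k ih =>
      obtain ⟨z, ⟨h1, h2⟩, h3⟩ := Set.mem_iUnion.mp hk
      exact (ih h1).trans (SimpleGraph.Adj.reachable ⟨⟨h2, h3.1⟩, h3.2⟩)

theorem const_dep {D : Set (Sym2 V)} {p : Prop} : Dep D {_ω : Sym2 V → Bool | p} :=
  fun _ _ _ h => h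

theorem rc_dep (R : Set V) (k : ℕ) : ∀ x y : V, Dep ({e : Sym2 V | ∀ v ∈ e, v ∈ R}ᶜ) (rc R k x y) := by
  induction k with
  | zero => intro x y; exact const_dep
  | succ k ih =>
    intro x y
    refine Dep.iUnion fun z => ?_
    intro ω ω' hw hω
    obtain ⟨⟨h1, h2⟩, h3⟩ := hω
    refine ⟨⟨ih x z ω ω' hw h1, h2⟩, ?_⟩
    have : s(z, y) ∈ ({e : Sym2 V | ∀ v ∈ e, v ∈ R}ᶜ : Set (Sym2 V)) := by
      intro h
      exact h3.2 ⟨h z (Sym2.mem_mk_left z y), h y (Sym2.mem_mk_right z y)⟩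
    exact ⟨by rw [← hw _ this]; exact h3.1, h3.2⟩

theorem rc_meas (R : Set V) (k : ℕ) : ∀ x y : V, MeasurableSet (rc R k x y) := by
  induction k with
  | zero => intro x y; exact MeasurableSet.const _
  | succ k ih =>
    intro x y
    exact MeasurableSet.iUnion fun z => ((ih x z).inter (MeasurableSet.const _)).inter
      ((Eo_dep R z y).measurable (Set.finite_singleton _))

variable {X : ℤ → ℕ}

theorem Dd_eq (X : ℤ → ℕ) (n : ℤ) :
    Dd X n = ⋂ x ∈ Lo X n, ⋂ y ∈ Up X n, ⋂ k, (rc (RR X) k x y)ᶜ := by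
  ext ω
  simp only [Dd, Set.mem_ofPred_eq, rc_iff, Set.mem_iInter, Set.mem_compl_iff, not_exists]

theorem Dd_meas (X : ℤ → ℕ) (n : ℤ) : MeasurableSet (Dd X n) := by
  rw [Dd_eq]
  exact MeasurableSet.biInter (Set.to_countable _) fun x _ =>
    MeasurableSet.biInter (Set.to_countable _) fun y _ => MeasurableSet.iInter fun k =>
      (rc_meas _ _ _ _).compl

theorem Dd_dep (X : ℤ → ℕ) (n : ℤ) : Dep ({e : Sym2 V | ∀ v ∈ e, v ∈ RR X}ᶜ) (Dd X n) := by
  rw [Dd_eq]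
  exact Dep.iInter fun x => Dep.iInter fun _ => Dep.iInter fun y => Dep.iInter fun _ =>
    Dep.iInter fun k => (rc_dep _ _ _ _).compl

/-- the three edges of a cut -/
noncomputable def ced (X : ℤ → ℕ) (n : ℤ) : Finset (Sym2 V) :=
  (Finset.Icc (-1 : ℤ) 1).image fun t => s((t, hgt X n), (t, hgt X n + 1))

theorem Cc_eq (X : ℤ → ℕ) (n : ℤ) : Cc X n = Set.pi (ced X n : Set (Sym2 V)) fun _ => {false} := by
  ext ω
  simp only [Cc, ced, Set.mem_ofPred_eq, Set.mem_pi, Finset.coe_image, Set.mem_image,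
    Set.mem_singleton_iff, Finset.coe_Icc, Set.mem_Icc, forall_exists_index, and_imp]
  constructor
  · intro h e t h1 h2 he
    rw [← he]
    exact h t (abs_le.mpr ⟨h1, h2⟩)
  · intro h t ht
    exact h _ t (abs_le.mp ht).1 (abs_le.mp ht).2 rfl

theorem Cc_meas (X : ℤ → ℕ) (n : ℤ) : MeasurableSet (Cc X n) := by
  rw [Cc_eq]
  exact MeasurableSet.pi (Finset.countable_toSet _) fun _ _ => MeasurableSet.of_discrete

theorem Cc_dep (hX : ∀ n, 1 ≤ X n) {n : ℤ} (h0 : X n = 1) (h1 : X (n + 1) = 1) :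
    Dep {e : Sym2 V | ∀ v ∈ e, v ∈ RR X} (Cc X n) := by
  intro ω ω' hw hω t ht
  rw [← hw]
  · exact hω t ht
  · have a1 : ((t, hgt X n) : V) ∈ RR X := by
      refine Set.mem_iUnion.mpr ⟨n, (mem_Bx X n _).mpr ⟨?_, ?_, le_refl _⟩⟩
      · rw [h0]; exact_mod_cast ht
      · have := hgt_mono hX (show n - 1 ≤ n by omega)
        show hgt X (n - 1) ≤ hgt X n
        omega
    have a2 : ((t, hgt X n + 1) : V) ∈ RR X := by
      refine Set.mem_iUnion.mpr ⟨n + 1, (mem_Bx X (n + 1) _).mpr ⟨?_, ?_, ?_⟩⟩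
      · rw [h1]; exact_mod_cast ht
      · rw [add_sub_cancel_right]
        show hgt X n ≤ hgt X n + 1
        omega
      · have := hgt_mono hX (show n ≤ n + 1 by omega)
        show hgt X n + 1 ≤ hgt X (n + 1)
        omega
    intro v hv
    rw [Sym2.mem_iff] at hv
    rcases hv with rfl | rfl
    · exact a1
    · exact a2

theorem Bx_card (a : ℤ) (r l : ℕ) (hr : r ≤ 2 ^ l) :
    (Bx_finite a r).toFinset.card ≤ 9 * 4 ^ l := by
  have h1 : (Bx_finite a r).toFinset ⊆ (Finset.Icc (-(r : ℤ)) r) ×ˢ (Finset.Icc (a - r) (a + r)) := by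
    intro v hv
    rw [Set.Finite.mem_toFinset] at hv
    obtain ⟨h1, h2, h3⟩ := hv
    have := abs_le.mp h1
    simp only [Finset.mem_product, Finset.mem_Icc]
    omega
  refine (Finset.card_le_card h1).trans ?_
  rw [Finset.card_product, Int.card_Icc, Int.card_Icc]
  have e1 : ((r : ℤ) + 1 - -(r : ℤ)).toNat = 2 * r + 1 := by omega
  have e2 : (a + r + 1 - (a - r)).toNat = 2 * r + 1 := by omega
  rw [e1, e2]
  have h2 : 2 * r + 1 ≤ 3 * 2 ^ l := by
    have : 1 ≤ 2 ^ l := Nat.one_le_two_pow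
    omega
  calc (2 * r + 1) * (2 * r + 1) ≤ (3 * 2 ^ l) * (3 * 2 ^ l) := Nat.mul_le_mul h2 h2
    _ = 9 * 4 ^ l := by
        have : (4 : ℕ) ^ l = 2 ^ l * 2 ^ l := by rw [← mul_pow]; norm_num
        rw [this]; ring

/-- paths from a box to far away -/
def Bt (X : ℤ → ℕ) (k : ℤ) (l : ℕ) : Set (Sym2 V → Bool) :=
  ⋃ x ∈ (Bx_finite (Zc X k) (X k)).toFinset, T (RR X) (l + 1) x ∅

section

variable (m : Sym2 V → Measure Bool) [∀ e, IsProbabilityMeasure (m e)]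

theorem Bt_prob {r : ℝ≥0∞}
    (hr : ∀ x y : V, ¬ (x ∈ RR X ∧ y ∈ RR X) → m s(x, y) {true} ≤ r) (k : ℤ) (l : ℕ)
    (hk : X k ≤ 2 ^ l) : Measure.infinitePi m (Bt X k l) ≤ 36 * r * (16 * r) ^ l := by
  unfold Bt
  refine (measure_biUnion_finset_le _ _).trans ?_
  calc ∑ x ∈ (Bx_finite (Zc X k) (X k)).toFinset, Measure.infinitePi m (T (RR X) (l + 1) x ∅)
      ≤ ∑ x ∈ (Bx_finite (Zc X k) (X k)).toFinset, (4 * r) ^ (l + 1) :=
        Finset.sum_le_sum fun x _ => T_prob m hr _ x ∅ (by simp)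
    _ = ((Bx_finite (Zc X k) (X k)).toFinset.card : ℝ≥0∞) * (4 * r) ^ (l + 1) := by
        rw [Finset.sum_const, nsmul_eq_mul]
    _ ≤ (9 * 4 ^ l) * (4 * r) ^ (l + 1) := by
        gcongr
        exact_mod_cast Bx_card _ _ _ hk
    _ = 36 * r * (16 * r) ^ l := by
        rw [pow_succ]
        have : (16 * r) ^ l = 4 ^ l * (4 * r) ^ l := by
          rw [← mul_pow, ← mul_assoc]; norm_num
        rw [this]
        ring

theorem Dd_compl_sub (hX : ∀ n, 1 ≤ X n) {n : ℤ} (hG : Gd X n) :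
    (Dd X n)ᶜ ⊆ ⋃ i : ℕ, ⋃ j : ℕ,
      ((⋃ _ : X (n - i) ≤ 2 ^ (i + j), Bt X (n - i) (i + j)) ∪
       (⋃ _ : X (n + 1 + j) ≤ 2 ^ (i + j), Bt X (n + 1 + j) (i + j))) := by
  intro ω hω
  unfold Dd at hω
  simp only [Set.mem_compl_iff, Set.mem_ofPred_eq, not_forall, not_not] at hω
  obtain ⟨x, hx, y, hy, hr⟩ := hω
  have hx2 := Lo_le hX hx
  obtain ⟨k, hk, hxk⟩ := hx
  obtain ⟨⟨k', hk', hyk⟩, hy2⟩ := hy
  obtain ⟨i, rfl⟩ : ∃ i : ℕ, k = n - i := ⟨(n - k).toNat, by omega⟩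
  obtain ⟨j, rfl⟩ : ∃ j : ℕ, k' = n + 1 + j := ⟨(k' - n - 1).toNat, by omega⟩
  have h1 := (mem_Bx X _ x).mp hxk
  have h2 := (mem_Bx X _ y).mp hyk
  have e1 : n + 1 + (j : ℤ) - 1 = n + j := by ring
  rw [e1] at h2
  have h3 := hgt_mono hX (show n - (i : ℤ) ≤ n + j by omega)
  have hd : ((i + j + 1 : ℕ) : ℤ) ≤ dst x y := by
    unfold dst
    have h4 := abs_nonneg (x.1 - y.1)
    have h5 : y.2 - x.2 ≤ |x.2 - y.2| := by
      rw [abs_sub_comm]; exact le_abs_self _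
    push_cast
    omega
  have hd' : ((i + j + 1 : ℕ) : ℤ) ≤ dst y x := by
    have : dst y x = dst x y := by unfold dst; rw [abs_sub_comm y.1, abs_sub_comm y.2]
    rw [this]; exact hd
  refine Set.mem_iUnion.mpr ⟨i, Set.mem_iUnion.mpr ⟨j, ?_⟩⟩
  rcases hG.2.2 i j with h | h
  · left
    refine Set.mem_iUnion.mpr ⟨h, Set.mem_iUnion₂.mpr ⟨x, ?_, T_of_reachable hr hd⟩⟩
    rw [Set.Finite.mem_toFinset]
    exact hxk
  · right
    refine Set.mem_iUnion.mpr ⟨h, Set.mem_iUnion₂.mpr ⟨y, ?_, T_of_reachable hr.symm hd'⟩⟩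
    rw [Set.Finite.mem_toFinset]
    exact hyk

theorem Dd_prob (hX : ∀ n, 1 ≤ X n) {n : ℤ} (hG : Gd X n)
    (hr : ∀ x y : V, ¬ (x ∈ RR X ∧ y ∈ RR X) → m s(x, y) {true} ≤ (1 / 800 : ℝ≥0∞)) :
    (1 / 2 : ℝ≥0∞) ≤ Measure.infinitePi m (Dd X n) := by
  have h1 : Measure.infinitePi m (Dd X n)ᶜ ≤ 1 / 2 := by
    refine (measure_mono (Dd_compl_sub hX hG)).trans ((measure_iUnion_le _).trans ?_)
    have h2 : ∀ i j : ℕ, Measure.infinitePi m
        ((⋃ _ : X (n - i) ≤ 2 ^ (i + j), Bt X (n - i) (i + j)) ∪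
         (⋃ _ : X (n + 1 + j) ≤ 2 ^ (i + j), Bt X (n + 1 + j) (i + j))) ≤
        2 * (36 * (1 / 800) * (16 * (1 / 800)) ^ (i + j)) := by
      intro i j
      refine (measure_union_le _ _).trans ?_
      rw [two_mul]
      gcongr
      · by_cases h : X (n - i) ≤ 2 ^ (i + j)
        · simp only [h, Set.iUnion_true]
          exact Bt_prob m hr _ _ h
        · simp [h]
      · by_cases h : X (n + 1 + j) ≤ 2 ^ (i + j)
        · simp only [h, Set.iUnion_true]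
          exact Bt_prob m hr _ _ h
        · simp [h]
    calc ∑' i : ℕ, Measure.infinitePi m (⋃ j : ℕ,
          ((⋃ _ : X (n - i) ≤ 2 ^ (i + j), Bt X (n - i) (i + j)) ∪
           (⋃ _ : X (n + 1 + j) ≤ 2 ^ (i + j), Bt X (n + 1 + j) (i + j))))
        ≤ ∑' i : ℕ, ∑' j : ℕ, 2 * (36 * (1 / 800) * (16 * (1 / 800 : ℝ≥0∞)) ^ (i + j)) :=
          ENNReal.tsum_le_tsum fun i => (measure_iUnion_le _).trans (ENNReal.tsum_le_tsum (h2 i))
      _ ≤ ∑' i : ℕ, ∑' j : ℕ, (9 / 100) * ((1 / 50 : ℝ≥0∞) ^ i * (1 / 50) ^ j) := by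
          refine ENNReal.tsum_le_tsum fun i => ENNReal.tsum_le_tsum fun j => ?_
          have e1 : 2 * (36 * (1 / 800 : ℝ≥0∞)) = 9 / 100 := by
            rw [← ENNReal.toReal_eq_toReal_iff' (by finiteness) (by finiteness)]
            simp only [ENNReal.toReal_mul, ENNReal.toReal_div, ENNReal.toReal_ofNat, ENNReal.toReal_one]
            norm_num
          have e2 : (16 * (1 / 800 : ℝ≥0∞)) = 1 / 50 := by
            rw [← ENNReal.toReal_eq_toReal_iff' (by finiteness) (by finiteness)]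
            simp only [ENNReal.toReal_mul, ENNReal.toReal_div, ENNReal.toReal_ofNat, ENNReal.toReal_one]
            norm_num
          rw [e2, ← mul_assoc, e1, pow_add]
      _ = (9 / 100) * ((1 - 1 / 50 : ℝ≥0∞)⁻¹ * (1 - 1 / 50)⁻¹) := by
          simp_rw [ENNReal.tsum_mul_left, ENNReal.tsum_mul_right, ENNReal.tsum_geometric]
      _ ≤ 1 / 2 := by
          have e3 : (1 - 1 / 50 : ℝ≥0∞) = 49 / 50 := by
            rw [← ENNReal.toReal_eq_toReal_iff' (by finiteness) (by finiteness)]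
            rw [ENNReal.toReal_sub_of_le (by norm_num) (by finiteness)]
            simp only [ENNReal.toReal_div, ENNReal.toReal_ofNat, ENNReal.toReal_one]
            norm_num
          have e4 : (49 / 50 : ℝ≥0∞)⁻¹ = 50 / 49 := ENNReal.inv_div (by simp) (by simp)
          rw [e3, e4, ← ENNReal.toReal_le_toReal (by finiteness) (by finiteness)]
          simp only [ENNReal.toReal_mul, ENNReal.toReal_div, ENNReal.toReal_ofNat,
            ENNReal.toReal_one]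
          norm_num
  have h2 := measure_add_measure_compl (μ := Measure.infinitePi m) (Dd_meas X n)
  rw [measure_univ] at h2
  by_contra hc
  have h3 : Measure.infinitePi m (Dd X n) + Measure.infinitePi m (Dd X n)ᶜ < 1 / 2 + 1 / 2 :=
    ENNReal.add_lt_add_of_lt_of_le (measure_ne_top _ _) (not_le.mp hc) h1
  rw [h2, ENNReal.add_halves] at h3
  exact lt_irrefl _ h3

theorem Cc_prob {s0 : ℝ≥0∞} (hs : ∀ e, s0 ≤ m e {false}) (n : ℤ) :
    s0 ^ 3 ≤ Measure.infinitePi m (Cc X n) := by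
  rw [Cc_eq, Measure.infinitePi_pi _ (fun _ _ => MeasurableSet.of_discrete)]
  have hs1 : s0 ≤ 1 := (hs s((0, 0), (0, 0))).trans prob_le_one
  have hc : (ced X n).card ≤ 3 := by
    unfold ced
    refine Finset.card_image_le.trans ?_
    simp
  calc s0 ^ 3 ≤ s0 ^ (ced X n).card := pow_le_pow_right_of_le_one' hs1 hc
    _ = ∏ _e ∈ ced X n, s0 := by rw [Finset.prod_const]
    _ ≤ ∏ e ∈ ced X n, m e {false} := Finset.prod_le_prod' fun e _ => hs e

theorem both_prob (hX : ∀ n, 1 ≤ X n) {n : ℤ} (hG : Gd X n)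
    (hr : ∀ x y : V, ¬ (x ∈ RR X ∧ y ∈ RR X) → m s(x, y) {true} ≤ (1 / 800 : ℝ≥0∞))
    {s0 : ℝ≥0∞} (hs : ∀ e, s0 ≤ m e {false}) :
    s0 ^ 3 * (1 / 2) ≤ Measure.infinitePi m (Cc X n ∩ Dd X n) := by
  rw [Dep.indep_meas m disjoint_compl_right (Cc_dep hX hG.1 hG.2.1) (Dd_dep X n) (Cc_meas X n)
    (Dd_meas X n) ⟨true⟩]
  gcongr
  · exact Cc_prob m hs n
  · exact Dd_prob m hX hG hr

/-- infinitely many blocked cuts along an injective sequence of cuts -/
theorem io_blocked (hX : ∀ n, 1 ≤ X n)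
    (hr : ∀ x y : V, ¬ (x ∈ RR X ∧ y ∈ RR X) → m s(x, y) {true} ≤ (1 / 800 : ℝ≥0∞))
    {s0 : ℝ≥0∞} (hs0 : 0 < s0) (hs : ∀ e, s0 ≤ m e {false}) {φ : ℕ → ℤ}
    (hφ : Function.Injective φ) (hG : ∃ᶠ k in atTop, Gd X (φ k)) :
    ∀ᵐ ω ∂(Measure.infinitePi m), ∃ᶠ k in atTop, Gd X (φ k) ∧ ω ∈ Cc X (φ k) ∩ Dd X (φ k) := by
  have hE : ∀ k, MeasurableSet {ω | Gd X (φ k) ∧ ω ∈ Cc X (φ k) ∩ Dd X (φ k)} := fun k =>
    (MeasurableSet.const _).inter ((Cc_meas X _).inter (Dd_meas X _))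
  have mG := io_meas hE
  have hge := io_ge (Measure.infinitePi m) hE (c := s0 ^ 3 * (1 / 2)) (hG.mono fun k hk => by
    have : {ω | Gd X (φ k) ∧ ω ∈ Cc X (φ k) ∩ Dd X (φ k)} = Cc X (φ k) ∩ Dd X (φ k) := by
      ext ω
      simp [hk]
    rw [this]
    exact both_prob m hX hk hr hs)
  have hpos : Measure.infinitePi m {ω | ∃ᶠ k in atTop,
      ω ∈ {ω | Gd X (φ k) ∧ ω ∈ Cc X (φ k) ∩ Dd X (φ k)}} ≠ 0 := by
    have : 0 < s0 ^ 3 * (1 / 2 : ℝ≥0∞) := ENNReal.mul_pos (ENNReal.pow_pos hs0 3).ne' (by norm_num)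
    exact (this.trans_le hge).ne'
  have hfin := ae_finite m hr (by
    have : (4 : ℝ≥0∞) * (1 / 800) = 1 / 200 := by
      rw [← ENNReal.toReal_eq_toReal_iff' (by finiteness) (by finiteness)]
      simp only [ENNReal.toReal_mul, ENNReal.toReal_div, ENNReal.toReal_ofNat, ENNReal.toReal_one]
      norm_num
    rw [this]
    norm_num)
  have h1 := zero_one m mG (fun F => by
    refine ⟨cl F ⁻¹' {ω | ∃ᶠ k in atTop, ω ∈ {ω | Gd X (φ k) ∧ ω ∈ Cc X (φ k) ∩ Dd X (φ k)}}, ?_, ?_, ?_⟩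
    · refine MeasurableSet.preimage mG ?_
      refine measurable_pi_lambda _ fun e => ?_
      by_cases he : e ∈ F
      · have : (fun ω : Sym2 V → Bool => cl F ω e) = fun _ => false := by
          ext ω
          rw [cl_of_mem he]
        rw [this]
        exact measurable_const
      · have : (fun ω : Sym2 V → Bool => cl F ω e) = fun ω => ω e := by
          ext ω
          rw [cl_of_notMem he]
        rw [this]
        exact measurable_pi_apply e
    · intro ω ω' hw hω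
      have : cl F ω = cl F ω' := by
        ext e
        by_cases he : e ∈ F
        · rw [cl_of_mem he, cl_of_mem he]
        · rw [cl_of_notMem he, cl_of_notMem he, hw e (by simpa using he)]
      rw [Set.mem_preimage] at hω ⊢
      rwa [← this]
    · filter_upwards [hfin] with ω hω
      have hf := far hX F hω
      have hev : ∀ᶠ k in atTop, φ k ∉
          {n : ℤ | cl F ω ∈ Cc X n ∩ Dd X n ∧ ω ∉ Cc X n ∩ Dd X n} := by
        rw [← Nat.cofinite_eq_atTop]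
        exact (hφ.tendsto_cofinite).eventually (hf.compl_mem_cofinite)
      apply propext
      show (∃ᶠ k in atTop, Gd X (φ k) ∧ ω ∈ Cc X (φ k) ∩ Dd X (φ k)) ↔
        (∃ᶠ k in atTop, Gd X (φ k) ∧ cl F ω ∈ Cc X (φ k) ∩ Dd X (φ k))
      constructor
      · intro h
        exact h.mono fun k hk => ⟨hk.1, Cc_cl hk.2.1, Dd_cl hk.2.2⟩
      · intro h
        refine (h.and_eventually hev).mono fun k hk => ⟨hk.1.1, ?_⟩
        by_contra hc
        exact hk.2 ⟨hk.1.2, hc⟩) hpos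
  exact (prob_compl_eq_zero_iff mG).mpr h1

/-- **Quenched theorem.** -/
theorem quenched (hX : ∀ n, 1 ≤ X n)
    (hr : ∀ x y : V, ¬ (x ∈ RR X ∧ y ∈ RR X) → m s(x, y) {true} ≤ (1 / 800 : ℝ≥0∞))
    {s0 : ℝ≥0∞} (hs0 : 0 < s0) (hs : ∀ e, s0 ≤ m e {false})
    (hp : ∃ᶠ k : ℕ in atTop, Gd X (k : ℤ)) (hn : ∃ᶠ k : ℕ in atTop, Gd X (-1 - (k : ℤ))) :
    ∀ᵐ ω ∂(Measure.infinitePi m), {y | (opn ω).Reachable (0, 0) y}.Finite := by
  have hfin := ae_finite m hr (by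
    have : (4 : ℝ≥0∞) * (1 / 800) = 1 / 200 := by
      rw [← ENNReal.toReal_eq_toReal_iff' (by finiteness) (by finiteness)]
      simp only [ENNReal.toReal_mul, ENNReal.toReal_div, ENNReal.toReal_ofNat, ENNReal.toReal_one]
      norm_num
    rw [this]
    norm_num)
  have e1 := io_blocked m hX hr hs0 hs (φ := fun k : ℕ => (k : ℤ)) Nat.cast_injective hp
  have e2 := io_blocked m hX hr hs0 hs (φ := fun k : ℕ => -1 - (k : ℤ)) (fun a b h => by
    simp only at h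
    omega) hn
  filter_upwards [hfin, e1, e2] with ω h h1 h2
  obtain ⟨k, hk1, hk2, hk3⟩ := h1.exists
  obtain ⟨l, hl1, hl2, hl3⟩ := h2.exists
  exact cluster_finite hX (by omega) (by omega) hk1.1 hk1.2.1 hl1.1 hl1.2.1 hk2 hk3 hl2 hl3 h

end

end Pool.Agent.Q220.Stk
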