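import Mathlib
import Pool.Agent.Q220.Stk.Quenched

/-!
The environment: a law with `E log X = ∞` for which good cuts occur infinitely often on both sides.
-/

set_option autoImplicit false
open MeasureTheory ProbabilityTheory Filter
open scoped ENNReal

namespace Pool.Agent.Q220.Stk

open Pool.Agent.Q220.DP

/-- weights -/
noncomputable def wt (a : ℕ) : ℝ≥0∞ := (2⁻¹ : ℝ≥0∞) ^ a * (8 * (a + 1 : ℕ) : ℝ≥0∞)⁻¹

/-- tail weights -/
theorem wt_tail (a : ℕ) : ∑' b, wt (a + b) ≤ (2⁻¹ : ℝ≥0∞) ^ a * (4 * (a + 1 : ℕ) : ℝ≥0∞)⁻¹ := by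
  have h1 : ∀ b, wt (a + b) ≤ ((2⁻¹ : ℝ≥0∞) ^ a * (8 * (a + 1 : ℕ) : ℝ≥0∞)⁻¹) * (2⁻¹ : ℝ≥0∞) ^ b := by
    intro b
    unfold wt
    rw [pow_add]
    calc (2⁻¹ : ℝ≥0∞) ^ a * 2⁻¹ ^ b * (8 * (a + b + 1 : ℕ) : ℝ≥0∞)⁻¹
        ≤ (2⁻¹ : ℝ≥0∞) ^ a * 2⁻¹ ^ b * (8 * (a + 1 : ℕ) : ℝ≥0∞)⁻¹ := by
          gcongr
          omega
      _ = _ := by ring
  refine (ENNReal.tsum_le_tsum h1).trans ?_
  rw [ENNReal.tsum_mul_left, ENNReal.tsum_geometric, ENNReal.one_sub_inv_two, inv_inv, mul_assoc]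
  gcongr
  have h2 : (8 * (a + 1 : ℕ) : ℝ≥0∞) = 2 * (4 * (a + 1 : ℕ)) := by ring
  rw [h2, ENNReal.mul_inv (by simp) (by simp), mul_comm, ← mul_assoc,
    ENNReal.mul_inv_cancel (by simp) (by simp), one_mul]

theorem wt_sum : ∑' a, wt a ≤ 1 / 4 := by
  have := wt_tail 0
  simpa using this

/-- the law of the radii -/
noncomputable def lawX : Measure ℕ :=
  Measure.sum (fun a => wt a • Measure.dirac (2 ^ 2 ^ a)) + (1 - ∑' a, wt a) • Measure.dirac 1

theorem lawX_apply (B : Set ℕ) :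
    lawX B = ∑' a, wt a * B.indicator 1 (2 ^ 2 ^ a) + (1 - ∑' a, wt a) * B.indicator 1 1 := by
  rw [lawX, Measure.add_apply, Measure.sum_apply _ MeasurableSet.of_discrete]
  simp [Measure.dirac_apply' _ MeasurableSet.of_discrete]

instance : IsProbabilityMeasure lawX := by
  constructor
  rw [lawX_apply]
  simp only [Set.indicator_univ, Pi.one_apply, mul_one]
  exact add_tsub_cancel_of_le (wt_sum.trans (by
    rw [ENNReal.div_le_iff (by norm_num) (by norm_num)]; norm_num))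

theorem lawX_tail (a : ℕ) : lawX {x | 2 ^ 2 ^ a ≤ x} ≤ (2⁻¹ : ℝ≥0∞) ^ a * (4 * (a + 1 : ℕ) : ℝ≥0∞)⁻¹ := by
  refine le_trans (le_of_eq ?_) (wt_tail a)
  rw [lawX_apply]
  have h1 : Set.indicator {x | 2 ^ 2 ^ a ≤ x} (1 : ℕ → ℝ≥0∞) 1 = 0 := by
    apply Set.indicator_of_notMem
    intro h
    have h2 : 2 ^ 2 ^ a ≤ 1 := h
    have h3 : 1 < 2 ^ 2 ^ a := Nat.one_lt_two_pow (by positivity)
    omega
  rw [h1, mul_zero, add_zero]
  have h2 : ∀ b, wt b * Set.indicator {x | 2 ^ 2 ^ a ≤ x} (1 : ℕ → ℝ≥0∞) (2 ^ 2 ^ b) =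
      if a ≤ b then wt b else 0 := by
    intro b
    by_cases hab : a ≤ b
    · rw [if_pos hab, Set.indicator_of_mem, Pi.one_apply, mul_one]
      exact Nat.pow_le_pow_right (by norm_num) (Nat.pow_le_pow_right (by norm_num) hab)
    · rw [if_neg hab, Set.indicator_of_notMem, mul_zero]
      intro h
      have h3 : 2 ^ 2 ^ a ≤ 2 ^ 2 ^ b := h
      have h4 := (Nat.pow_le_pow_iff_right (by norm_num : 1 < 2)).mp h3
      exact hab ((Nat.pow_le_pow_iff_right (by norm_num : 1 < 2)).mp h4)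
  simp_rw [h2]
  have h3 : Function.Injective fun b : ℕ => a + b := fun b c h => by simpa using h
  rw [← h3.tsum_eq]
  · congr 1
    ext b
    simp
  · intro b hb
    have : a ≤ b := by
      by_contra hc
      simp [hc] at hb
    exact ⟨b - a, by simp only; omega⟩

theorem lawX_ne_one : lawX {x | x ≠ 1} ≤ 1 / 4 := by
  refine le_trans (le_of_eq ?_) wt_sum
  rw [lawX_apply]
  have h1 : Set.indicator {x | x ≠ 1} (1 : ℕ → ℝ≥0∞) 1 = 0 := by
    apply Set.indicator_of_notMem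
    simp
  rw [h1, mul_zero, add_zero]
  congr 1
  ext b
  rw [Set.indicator_of_mem, Pi.one_apply, mul_one]
  have h3 : 1 < 2 ^ 2 ^ b := Nat.one_lt_two_pow (by positivity)
  show 2 ^ 2 ^ b ≠ 1
  omega

theorem lawX_supp : lawX {x | x = 1 ∨ ∃ a, x = 2 ^ 2 ^ a}ᶜ = 0 := by
  rw [lawX_apply]
  have h1 : Set.indicator {x | x = 1 ∨ ∃ a, x = 2 ^ 2 ^ a}ᶜ (1 : ℕ → ℝ≥0∞) 1 = 0 := by
    apply Set.indicator_of_notMem
    simp
  have h2 : ∀ b, Set.indicator {x | x = 1 ∨ ∃ a, x = 2 ^ 2 ^ a}ᶜ (1 : ℕ → ℝ≥0∞) (2 ^ 2 ^ b) = 0 := by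
    intro b
    apply Set.indicator_of_notMem
    simp only [Set.mem_compl_iff, not_not]
    exact Or.inr ⟨b, rfl⟩
  simp [h1, h2]

theorem lawX_log : ∫⁻ x, ENNReal.ofReal (Real.log x) ∂lawX = ∞ := by
  have h1 : ∫⁻ x, ENNReal.ofReal (Real.log x) ∂(Measure.sum (fun a => wt a • Measure.dirac (2 ^ 2 ^ a) : ℕ → Measure ℕ)) = ∞ := by
    rw [lintegral_sum_measure]
    have h2 : ∀ a : ℕ, ∫⁻ x, ENNReal.ofReal (Real.log x) ∂(wt a • Measure.dirac (2 ^ 2 ^ a) : Measure ℕ) =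
        ENNReal.ofReal (Real.log 2 / 8) * ENNReal.ofReal (1 / ((a : ℝ) + 1)) := by
      intro a
      rw [lintegral_smul_measure, lintegral_dirac, smul_eq_mul]
      have h3 : Real.log ((2 ^ 2 ^ a : ℕ) : ℝ) = 2 ^ a * Real.log 2 := by
        push_cast
        rw [Real.log_pow]
        push_cast
        rfl
      rw [h3]
      have h4 : wt a = ENNReal.ofReal ((1 / 2) ^ a * (8 * ((a : ℝ) + 1))⁻¹) := by
        unfold wt
        rw [ENNReal.ofReal_mul (by positivity), ENNReal.ofReal_pow (by positivity),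
          ENNReal.ofReal_inv_of_pos (by positivity)]
        congr 2
        · rw [one_div, ENNReal.ofReal_inv_of_pos (by norm_num)]
          norm_num
        · rw [ENNReal.ofReal_mul (by norm_num)]
          congr 1
          · norm_num
          · rw [← ENNReal.ofReal_natCast]
            push_cast
            rfl
      have hl : 0 < Real.log 2 := Real.log_pos (by norm_num)
      rw [h4, ← ENNReal.ofReal_mul (by positivity), ← ENNReal.ofReal_mul (by positivity)]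
      congr 1
      have h5 : ((1 : ℝ) / 2) ^ a * 2 ^ a = 1 := by rw [← mul_pow]; norm_num
      field_simp
      linear_combination h5
    simp_rw [h2]
    rw [ENNReal.tsum_mul_left]
    have h6 : ∑' a : ℕ, ENNReal.ofReal (1 / ((a : ℝ) + 1)) = ∞ := by
      by_contra hne
      have := ENNReal.summable_toReal hne
      have h7 : Summable fun a : ℕ => 1 / ((a : ℝ) + 1) := by
        refine this.congr fun a => ?_
        rw [ENNReal.toReal_ofReal (by positivity)]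
      have h8 := (summable_nat_add_iff (f := fun n : ℕ => 1 / (n : ℝ)) 1).mp (by
        refine h7.congr fun a => ?_
        push_cast
        rfl)
      exact Real.not_summable_one_div_natCast h8
    rw [h6]
    have hl : 0 < Real.log 2 := Real.log_pos (by norm_num)
    exact ENNReal.mul_top (ENNReal.ofReal_pos.mpr (by positivity)).ne'
  unfold lawX
  rw [lintegral_add_measure, h1]
  simp

/-- the law of the environment -/
noncomputable def nu : Measure (ℤ → ℕ) := Measure.infinitePi fun _ => lawX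

instance : IsProbabilityMeasure nu := by unfold nu; infer_instance

/-- large radii on the left of the cut -/
def Lf (n : ℤ) (a : ℕ) : Set (ℤ → ℕ) := {X | ∃ i : ℕ, i < 2 ^ a ∧ 2 ^ 2 ^ a ≤ X (n - (i : ℤ))}

/-- large radii on the right of the cut -/
def Rf (n : ℤ) (a : ℕ) : Set (ℤ → ℕ) := {X | ∃ j : ℕ, j < 2 ^ a ∧ 2 ^ 2 ^ a ≤ X (n + 1 + (j : ℤ))}

/-- good cuts -/
def Ge (n : ℤ) : Set (ℤ → ℕ) := {X | X n = 1 ∧ X (n + 1) = 1 ∧ ∀ a, ¬ (X ∈ Lf n a ∧ X ∈ Rf n a)}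

theorem coord_dep (n : ℤ) (B : Set ℕ) : Dep {n} {X : ℤ → ℕ | X n ∈ B} := by
  intro X X' h hX
  have := h n rfl
  show X' n ∈ B
  rw [← this]
  exact hX

theorem coord_meas (n : ℤ) (B : Set ℕ) : MeasurableSet {X : ℤ → ℕ | X n ∈ B} :=
  (coord_dep n B).measurable (Set.finite_singleton n)

theorem coord_prob (n : ℤ) (B : Set ℕ) : nu {X : ℤ → ℕ | X n ∈ B} = lawX B := by
  unfold nu
  have h1 : {X : ℤ → ℕ | X n ∈ B} = (fun X : ℤ → ℕ => X n) ⁻¹' B := rfl
  rw [h1, (measurePreserving_eval_infinitePi (fun _ : ℤ => lawX) n).measure_preimage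
    (MeasurableSet.of_discrete.nullMeasurableSet)]

theorem side_eq (g : ℕ → ℤ) (a : ℕ) : {X : ℤ → ℕ | ∃ i < 2 ^ a, 2 ^ 2 ^ a ≤ X (g i)} =
    ⋃ i ∈ Finset.range (2 ^ a), {X : ℤ → ℕ | X (g i) ∈ {x | 2 ^ 2 ^ a ≤ x}} := by
  ext X
  simp

theorem side_dep (g : ℕ → ℤ) (a : ℕ) :
    Dep (g '' (Finset.range (2 ^ a) : Set ℕ)) {X : ℤ → ℕ | ∃ i < 2 ^ a, 2 ^ 2 ^ a ≤ X (g i)} := by
  rw [side_eq]
  refine Dep.iUnion fun i => Dep.iUnion fun hi => (coord_dep _ _).mono ?_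
  rintro _ rfl
  exact ⟨i, by exact_mod_cast hi, rfl⟩

theorem side_prob (g : ℕ → ℤ) (a : ℕ) :
    nu {X : ℤ → ℕ | ∃ i < 2 ^ a, 2 ^ 2 ^ a ≤ X (g i)} ≤ (4 * (a + 1 : ℕ) : ℝ≥0∞)⁻¹ := by
  rw [side_eq]
  refine (measure_biUnion_finset_le _ _).trans ?_
  calc ∑ i ∈ Finset.range (2 ^ a), nu {X : ℤ → ℕ | X (g i) ∈ {x | 2 ^ 2 ^ a ≤ x}}
      ≤ ∑ i ∈ Finset.range (2 ^ a), (2⁻¹ : ℝ≥0∞) ^ a * (4 * (a + 1 : ℕ) : ℝ≥0∞)⁻¹ := by
        refine Finset.sum_le_sum fun i _ => ?_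
        rw [coord_prob]
        exact lawX_tail a
    _ = (2 ^ a * (2⁻¹ : ℝ≥0∞) ^ a) * (4 * (a + 1 : ℕ) : ℝ≥0∞)⁻¹ := by
        rw [Finset.sum_const, Finset.card_range, nsmul_eq_mul]
        push_cast
        ring
    _ = _ := by
        rw [← mul_pow, ENNReal.mul_inv_cancel (by norm_num) (by norm_num), one_pow, one_mul]

theorem fail_prob (n : ℤ) (a : ℕ) : nu (Lf n a ∩ Rf n a) ≤ ((4 * (a + 1 : ℕ) : ℝ≥0∞)⁻¹) ^ 2 := by
  have h1 : nu (Lf n a ∩ Rf n a) = nu (Lf n a) * nu (Rf n a) := by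
    unfold nu Lf Rf
    refine Dep.indep _ (D1 := (fun i : ℕ => n - (i : ℤ)) '' (Finset.range (2 ^ a) : Set ℕ))
      (D2 := (fun j : ℕ => n + 1 + (j : ℤ)) '' (Finset.range (2 ^ a) : Set ℕ))
      ((Finset.finite_toSet _).image _) ((Finset.finite_toSet _).image _) ?_
      (side_dep (fun i : ℕ => n - (i : ℤ)) a) (side_dep (fun j : ℕ => n + 1 + (j : ℤ)) a)
    rw [Set.disjoint_left]
    rintro _ ⟨i, _, rfl⟩ ⟨j, _, h⟩
    simp only at h
    omega
  rw [h1, sq]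
  gcongr
  · exact side_prob (fun i : ℕ => n - (i : ℤ)) a
  · exact side_prob (fun j : ℕ => n + 1 + (j : ℤ)) a

theorem zeta_le : ∑' a : ℕ, ((4 * (a + 1 : ℕ) : ℝ≥0∞)⁻¹) ^ 2 ≤ 1 / 8 := by
  have h1 : ∀ a : ℕ, ((4 * (a + 1 : ℕ) : ℝ≥0∞)⁻¹) ^ 2 = ENNReal.ofReal (1 / (16 * ((a : ℝ) + 1) ^ 2)) := by
    intro a
    have e : (4 * (a + 1 : ℕ) : ℝ≥0∞) = ENNReal.ofReal (4 * ((a : ℝ) + 1)) := by
      rw [ENNReal.ofReal_mul (by norm_num)]
      congr 1
      · norm_num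
      · rw [← ENNReal.ofReal_natCast]
        push_cast
        rfl
    rw [e, ← ENNReal.ofReal_inv_of_pos (by positivity), ← ENNReal.ofReal_pow (by positivity)]
    congr 1
    field_simp
    norm_num
  simp_rw [h1]
  refine ENNReal.tsum_le_of_sum_range_le fun n => ?_
  rw [← ENNReal.ofReal_sum_of_nonneg fun a _ => by positivity]
  have h2 : ∀ n : ℕ, ∑ a ∈ Finset.range n, 1 / (16 * ((a : ℝ) + 1) ^ 2) ≤ 1 / 8 * (1 - 1 / ((n : ℝ) + 1)) := by
    intro n
    induction n with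
    | zero => simp
    | succ n ih =>
      rw [Finset.sum_range_succ]
      have h3 : 1 / (16 * ((n : ℝ) + 1) ^ 2) ≤ 1 / 8 * (1 / ((n : ℝ) + 1) - 1 / (((n + 1 : ℕ) : ℝ) + 1)) := by
        push_cast
        rw [div_sub_div _ _ (by positivity) (by positivity), ← mul_div_assoc,
          div_le_div_iff₀ (by positivity) (by positivity)]
        nlinarith [(Nat.cast_nonneg n : (0 : ℝ) ≤ n)]
      linarith
  have h3 : (1 / 8 : ℝ≥0∞) = ENNReal.ofReal (1 / 8) := by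
    rw [ENNReal.ofReal_div_of_pos (by norm_num)]
    norm_num
  rw [h3]
  apply ENNReal.ofReal_le_ofReal
  refine (h2 n).trans ?_
  have : (0 : ℝ) < 1 / ((n : ℝ) + 1) := by positivity
  linarith

theorem Ge_meas (n : ℤ) : MeasurableSet (Ge n) := by
  have h1 : Ge n = {X | X n ∈ ({1} : Set ℕ)} ∩ ({X | X (n + 1) ∈ ({1} : Set ℕ)} ∩
      ⋂ a, (Lf n a ∩ Rf n a)ᶜ) := by
    ext X
    simp [Ge]
  rw [h1]
  refine (coord_meas _ _).inter ((coord_meas _ _).inter (MeasurableSet.iInter fun a => ?_))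
  exact (((side_dep (fun i : ℕ => n - (i : ℤ)) a).measurable
    ((Finset.finite_toSet _).image _)).inter ((side_dep (fun j : ℕ => n + 1 + (j : ℤ)) a).measurable
    ((Finset.finite_toSet _).image _))).compl

theorem Ge_prob (n : ℤ) : (3 / 8 : ℝ≥0∞) ≤ nu (Ge n) := by
  have h1 : nu (Ge n)ᶜ ≤ 5 / 8 := by
    have hsub : (Ge n)ᶜ ⊆ ({X | X n ∈ {x | x ≠ 1}} ∪ {X | X (n + 1) ∈ {x | x ≠ 1}}) ∪
        ⋃ a, (Lf n a ∩ Rf n a) := by
      intro X hX
      by_cases h1 : X n = 1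
      · by_cases h2 : X (n + 1) = 1
        · right
          unfold Ge at hX
          simp only [Set.mem_compl_iff, Set.mem_ofPred_eq, h1, h2, true_and, not_forall, not_not] at hX
          obtain ⟨a, ha⟩ := hX
          exact Set.mem_iUnion.mpr ⟨a, ha⟩
        · left; right; exact h2
      · left; left; exact h1
    calc nu (Ge n)ᶜ ≤ (1 / 4 + 1 / 4) + 1 / 8 := by
          refine (measure_mono hsub).trans ((measure_union_le _ _).trans ?_)
          gcongr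
          · refine (measure_union_le _ _).trans ?_
            gcongr
            · rw [coord_prob]; exact lawX_ne_one
            · rw [coord_prob]; exact lawX_ne_one
          · exact (measure_iUnion_le _).trans ((ENNReal.tsum_le_tsum (fail_prob n)).trans zeta_le)
      _ = 5 / 8 := by
          rw [← ENNReal.toReal_eq_toReal_iff' (by finiteness) (by finiteness)]
          rw [ENNReal.toReal_add (by finiteness) (by finiteness),
            ENNReal.toReal_add (by finiteness) (by finiteness)]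
          simp only [ENNReal.toReal_div, ENNReal.toReal_ofNat, ENNReal.toReal_one]
          norm_num
  have h2 := measure_add_measure_compl (μ := nu) (Ge_meas n)
  rw [measure_univ] at h2
  by_contra hc
  have h3 : nu (Ge n) + nu (Ge n)ᶜ < 3 / 8 + 5 / 8 :=
    ENNReal.add_lt_add_of_lt_of_le (measure_ne_top _ _) (not_le.mp hc) h1
  rw [h2] at h3
  have h4 : (3 / 8 + 5 / 8 : ℝ≥0∞) = 1 := by
    rw [← ENNReal.toReal_eq_toReal_iff' (by finiteness) (by finiteness)]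
    rw [ENNReal.toReal_add (by finiteness) (by finiteness)]
    simp only [ENNReal.toReal_div, ENNReal.toReal_ofNat, ENNReal.toReal_one]
    norm_num
  rw [h4] at h3
  exact lt_irrefl _ h3

/-- put radius one on `F` -/
noncomputable def on1 (F : Finset ℤ) (X : ℤ → ℕ) : ℤ → ℕ := by
  classical exact fun n => if n ∈ F then 1 else X n

theorem on1_mem {F : Finset ℤ} {X : ℤ → ℕ} {n : ℤ} (h : n ∈ F) : on1 F X n = 1 := by simp [on1, h]

theorem on1_notMem {F : Finset ℤ} {X : ℤ → ℕ} {n : ℤ} (h : n ∉ F) : on1 F X n = X n := by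
  simp [on1, h]

theorem big_gt_one (a : ℕ) : 1 < 2 ^ 2 ^ a := Nat.one_lt_two_pow (by positivity)

theorem on1_big {F : Finset ℤ} {X : ℤ → ℕ} {n : ℤ} {a : ℕ} (h : 2 ^ 2 ^ a ≤ on1 F X n) :
    2 ^ 2 ^ a ≤ X n := by
  by_cases hn : n ∈ F
  · rw [on1_mem hn] at h
    have := big_gt_one a
    omega
  · rwa [on1_notMem hn] at h

theorem Ge_on1 {F : Finset ℤ} {X : ℤ → ℕ} {n : ℤ} (h : X ∈ Ge n) : on1 F X ∈ Ge n := by
  obtain ⟨h1, h2, h3⟩ := h
  refine ⟨?_, ?_, ?_⟩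
  · by_cases hn : n ∈ F
    · exact on1_mem hn
    · rw [on1_notMem hn]; exact h1
  · by_cases hn : n + 1 ∈ F
    · exact on1_mem hn
    · rw [on1_notMem hn]; exact h2
  · rintro a ⟨⟨i, hi, hi'⟩, ⟨j, hj, hj'⟩⟩
    exact h3 a ⟨⟨i, hi, on1_big hi'⟩, ⟨j, hj, on1_big hj'⟩⟩

theorem Ge_far (F : Finset ℤ) (X : ℤ → ℕ) : {n : ℤ | on1 F X ∈ Ge n ∧ X ∉ Ge n}.Finite := by
  obtain ⟨B, hB⟩ : ∃ B : ℕ, ∀ f ∈ F, |f| ≤ B ∧ X f ≤ B := by
    refine ⟨∑ f ∈ F, (f.natAbs + X f), fun f hf => ?_⟩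
    have := Finset.single_le_sum (f := fun f => f.natAbs + X f) (fun _ _ => Nat.zero_le _) hf
    rw [Int.abs_eq_natAbs]
    constructor <;> omega
  refine (Set.finite_Icc (-(2 * (B : ℤ) + 2)) (2 * B + 2)).subset ?_
  rintro n ⟨⟨h1, h2, h3⟩, hn⟩
  by_contra hc
  rw [Set.mem_Icc, not_and_or, not_le, not_le] at hc
  have a1 : ∀ z : ℤ, |z - n| ≤ B + 1 → z ∉ F := by
    intro z hz hzF
    have h4 := (hB z hzF).1
    rw [abs_le] at hz h4
    omega
  apply hn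
  have n0 : n ∉ F := a1 n (by rw [sub_self, abs_zero]; omega)
  have n1 : n + 1 ∉ F := a1 (n + 1) (by rw [add_sub_cancel_left]; simp)
  rw [on1_notMem n0] at h1
  rw [on1_notMem n1] at h2
  have key : ∀ (z : ℤ) (a i : ℕ), i < 2 ^ a → |z - n| ≤ i + 1 → 2 ^ 2 ^ a ≤ X z → 2 ^ 2 ^ a ≤ on1 F X z := by
    intro z a i hi hz hX
    by_cases hzF : z ∈ F
    · exfalso
      have h5 := (hB z hzF).2
      have h6 : 2 ^ a < 2 ^ 2 ^ a := Nat.lt_two_pow_self
      refine a1 z (hz.trans ?_) hzF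
      have : i ≤ B := by omega
      omega
    · rw [on1_notMem hzF]; exact hX
  refine ⟨h1, h2, ?_⟩
  rintro a ⟨⟨i, hi, hi'⟩, ⟨j, hj, hj'⟩⟩
  refine h3 a ⟨⟨i, hi, key _ a i hi ?_ hi'⟩, ⟨j, hj, key _ a j hj ?_ hj'⟩⟩
  · rw [abs_le]; omega
  · rw [abs_le]; omega

/-- good cuts occur infinitely often -/
theorem io_good {φ : ℕ → ℤ} (hφ : Function.Injective φ) : ∀ᵐ X ∂nu, ∃ᶠ k in atTop, X ∈ Ge (φ k) := by
  have mG := io_meas (fun k => Ge_meas (φ k))
  have hge := io_ge nu (fun k => Ge_meas (φ k)) (c := 3 / 8)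
    (Eventually.frequently (Eventually.of_forall fun k => Ge_prob (φ k)))
  have hpos : nu {X | ∃ᶠ k in atTop, X ∈ Ge (φ k)} ≠ 0 := by
    have : (0 : ℝ≥0∞) < 3 / 8 := by
      rw [ENNReal.div_pos_iff]; norm_num
    exact (this.trans_le hge).ne'
  have h1 := zero_one (fun _ : ℤ => lawX) mG (fun F => by
    refine ⟨on1 F ⁻¹' {X | ∃ᶠ k in atTop, X ∈ Ge (φ k)}, ?_, ?_, ?_⟩
    · refine MeasurableSet.preimage mG ?_
      refine measurable_pi_lambda _ fun e => ?_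
      by_cases he : e ∈ F
      · have : (fun X : ℤ → ℕ => on1 F X e) = fun _ => 1 := by
          ext X
          rw [on1_mem he]
        rw [this]
        exact measurable_const
      · have : (fun X : ℤ → ℕ => on1 F X e) = fun X => X e := by
          ext X
          rw [on1_notMem he]
        rw [this]
        exact measurable_pi_apply e
    · intro X X' hw hX
      have : on1 F X = on1 F X' := by
        ext e
        by_cases he : e ∈ F
        · rw [on1_mem he, on1_mem he]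
        · rw [on1_notMem he, on1_notMem he, hw e (by simpa using he)]
      rw [Set.mem_preimage] at hX ⊢
      rwa [← this]
    · refine Eventually.of_forall fun X => ?_
      have hev : ∀ᶠ k in atTop, φ k ∉ {n : ℤ | on1 F X ∈ Ge n ∧ X ∉ Ge n} := by
        rw [← Nat.cofinite_eq_atTop]
        exact (hφ.tendsto_cofinite).eventually ((Ge_far F X).compl_mem_cofinite)
      apply propext
      show (∃ᶠ k in atTop, X ∈ Ge (φ k)) ↔ (∃ᶠ k in atTop, on1 F X ∈ Ge (φ k))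
      constructor
      · intro h
        exact h.mono fun k hk => Ge_on1 hk
      · intro h
        refine (h.and_eventually hev).mono fun k hk => ?_
        by_contra hc
        exact hk.2 ⟨hk.1, hc⟩) hpos
  exact (prob_compl_eq_zero_iff mG).mpr h1

theorem Gd_of_Ge {X : ℤ → ℕ} (hX : ∀ n, X n = 1 ∨ ∃ a, X n = 2 ^ 2 ^ a) {n : ℤ} (h : X ∈ Ge n) :
    Gd X n := by
  obtain ⟨h1, h2, h3⟩ := h
  refine ⟨h1, h2, fun i j => ?_⟩
  by_contra hc
  rw [not_or, not_le, not_le] at hc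
  obtain ⟨hi, hj⟩ := hc
  have hone : 1 ≤ 2 ^ (i + j) := Nat.one_le_two_pow
  rcases hX (n - i) with h4 | ⟨a, ha⟩
  · omega
  rcases hX (n + 1 + j) with h5 | ⟨b, hb⟩
  · omega
  rw [ha] at hi
  rw [hb] at hj
  have hi' := (Nat.pow_lt_pow_iff_right (by norm_num : 1 < 2)).mp hi
  have hj' := (Nat.pow_lt_pow_iff_right (by norm_num : 1 < 2)).mp hj
  rcases le_total a b with hab | hab
  · have h6 : 2 ^ 2 ^ a ≤ 2 ^ 2 ^ b :=
      Nat.pow_le_pow_right (by norm_num) (Nat.pow_le_pow_right (by norm_num) hab)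
    exact h3 a ⟨⟨i, by omega, ha.ge⟩, ⟨j, by omega, by rw [hb]; exact h6⟩⟩
  · have h6 : 2 ^ 2 ^ b ≤ 2 ^ 2 ^ a :=
      Nat.pow_le_pow_right (by norm_num) (Nat.pow_le_pow_right (by norm_num) hab)
    exact h3 b ⟨⟨i, by omega, by rw [ha]; exact h6⟩, ⟨j, by omega, hb.ge⟩⟩

theorem ae_supp : ∀ᵐ X ∂nu, ∀ n, X n = 1 ∨ ∃ a, X n = 2 ^ 2 ^ a := by
  rw [ae_all_iff]
  intro n
  have h1 := coord_prob n ({x | x = 1 ∨ ∃ a, x = 2 ^ 2 ^ a}ᶜ)
  rw [lawX_supp] at h1
  exact measure_eq_zero_iff_ae_notMem.mp h1 |>.mono fun X hX => by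
    by_contra hc
    exact hX hc

end Pool.Agent.Q220.Stk
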