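import Mathlib
import Pool.Agent.Q220.Stk.Env

/-!
The stack model in dimension two with `E log X = ∞` and no percolation for any `q < 1`.
-/

set_option autoImplicit false
open MeasureTheory ProbabilityTheory Filter
open scoped ENNReal unitInterval

namespace Pool.Agent.Q220.Stk

open Classical in
/-- parameter of an edge: `q` inside the region `R`, otherwise `p` -/
noncomputable def par (R : Set V) (p q : I) (e : Sym2 V) : I := if ∀ v ∈ e, v ∈ R then q else p

/-- the quenched law: edges are open (value `true`) independently -/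
noncomputable def QL (R : Set V) (p q : I) : Measure (Sym2 V → Bool) :=
  Measure.infinitePi fun e => bernoulliMeasure true false (par R p q e)

/-- probability that the open cluster of the origin is infinite -/
noncomputable def theta (R : Set V) (p q : I) : ℝ≥0∞ :=
  QL R p q {ω | ((opn ω).connectedComponentMk (0, 0)).supp.Infinite}

/-- the critical parameter of bond percolation on the square lattice -/
noncomputable def pc : ℝ := sSup {r : ℝ | ∃ h : r ∈ I, theta ∅ ⟨r, h⟩ ⟨r, h⟩ = 0}

theorem bern_true (r : I) : bernoulliMeasure true false r {true} = ENNReal.ofReal r := by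
  rw [bernoulliMeasure_apply_of_mem_of_notMem _ (MeasurableSet.singleton _) (by simp) (by simp)]
  exact (ENNReal.ofReal_eq_coe_nnreal r.2.1).symm

theorem bern_false (r : I) : bernoulliMeasure true false r {false} = ENNReal.ofReal (1 - r) := by
  have h1 := prob_compl_eq_one_sub (μ := bernoulliMeasure true false r) (s := {true})
    (MeasurableSet.of_discrete)
  have h2 : ({true} : Set Bool)ᶜ = {false} := by
    ext b
    cases b <;> simp
  rw [h2, bern_true] at h1
  rw [h1, ENNReal.ofReal_sub _ r.2.1, ENNReal.ofReal_one]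

theorem supp_eq (ω : Sym2 V → Bool) :
    ((opn ω).connectedComponentMk (0, 0)).supp = {y | (opn ω).Reachable (0, 0) y} := by
  ext y
  rw [SimpleGraph.ConnectedComponent.mem_supp_iff, SimpleGraph.ConnectedComponent.eq]
  exact ⟨fun h => h.symm, fun h => h.symm⟩

theorem theta_zero {R : Set V} {p q : I}
    (h : ∀ᵐ ω ∂(QL R p q), {y | (opn ω).Reachable (0, 0) y}.Finite) : theta R p q = 0 := by
  unfold theta
  refine measure_mono_null ?_ h
  intro ω hω hfin
  have h1 : ((opn ω).connectedComponentMk (0, 0)).supp.Infinite := hω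
  rw [supp_eq] at h1
  exact h1 hfin

theorem pc_gt : (1 / 800 : ℝ) < pc := by
  have h5 : (1 / 5 : ℝ) ∈ I := ⟨by norm_num, by norm_num⟩
  have hmem : (1 / 5 : ℝ) ∈ {r : ℝ | ∃ h : r ∈ I, theta ∅ ⟨r, h⟩ ⟨r, h⟩ = 0} := by
    refine ⟨h5, theta_zero ?_⟩
    have hr : ∀ x y : V, ¬ (x ∈ (∅ : Set V) ∧ y ∈ (∅ : Set V)) →
        bernoulliMeasure true false (par ∅ ⟨1 / 5, h5⟩ ⟨1 / 5, h5⟩ s(x, y)) {true} ≤
          ENNReal.ofReal (1 / 5) := by
      intro x y _
      rw [bern_true]
      unfold par
      split_ifs <;> exact le_refl _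
    have h1 := ae_finite (fun e => bernoulliMeasure true false (par ∅ ⟨1 / 5, h5⟩ ⟨1 / 5, h5⟩ e)) hr
      (by
        have : (4 : ℝ≥0∞) = ENNReal.ofReal 4 := by norm_num
        rw [this, ← ENNReal.ofReal_mul (by norm_num), ENNReal.ofReal_lt_one]
        norm_num)
    filter_upwards [h1] with ω hω
    refine (hω (0, 0)).subset ?_
    intro y hy
    exact SimpleGraph.Reachable.mono (fun a b hab => ⟨hab, by simp⟩) hy
  have hbdd : BddAbove {r : ℝ | ∃ h : r ∈ I, theta ∅ ⟨r, h⟩ ⟨r, h⟩ = 0} :=
    ⟨1, fun r hr => hr.1.2⟩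
  have := le_csSup hbdd hmem
  unfold pc
  linarith

/-- **Main theorem.** -/
theorem no_percolation {p q : I} (hp : (p : ℝ) ≤ 1 / 800) (hq : (q : ℝ) < 1) :
    ∀ᵐ X ∂nu, theta (RR X) p q = 0 := by
  have e1 := io_good (φ := fun k : ℕ => (k : ℤ)) Nat.cast_injective
  have e2 := io_good (φ := fun k : ℕ => -1 - (k : ℤ)) (fun a b h => by
    simp only at h
    omega)
  filter_upwards [ae_supp, e1, e2] with X hs h1 h2
  have hX : ∀ n, 1 ≤ X n := by
    intro n
    rcases hs n with h | ⟨a, h⟩
    · omega
    · have := big_gt_one a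
      omega
  apply theta_zero
  set s0 : ℝ := min (1 - p) (1 - q) with hs0
  have hs0pos : 0 < s0 := lt_min (by linarith) (by linarith)
  refine quenched (fun e => bernoulliMeasure true false (par (RR X) p q e)) hX ?_
    (s0 := ENNReal.ofReal s0) (ENNReal.ofReal_pos.mpr hs0pos) ?_
    (h1.mono fun k hk => Gd_of_Ge hs hk) (h2.mono fun k hk => Gd_of_Ge hs hk)
  · intro x y hxy
    rw [bern_true]
    unfold par
    rw [if_neg]
    · have : (1 / 800 : ℝ≥0∞) = ENNReal.ofReal (1 / 800) := by
        rw [ENNReal.ofReal_div_of_pos (by norm_num)]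
        norm_num
      rw [this]
      exact ENNReal.ofReal_le_ofReal hp
    · intro h
      exact hxy ⟨h x (Sym2.mem_mk_left x y), h y (Sym2.mem_mk_right x y)⟩
  · intro e
    rw [bern_false]
    apply ENNReal.ofReal_le_ofReal
    unfold par
    split_ifs
    · exact min_le_right _ _
    · exact min_le_left _ _

end Pool.Agent.Q220.Stk
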